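import Pool.Agent.W492.MT.Defs

/-!
# Definitions: Kimura finiteness, conservativity, homological and numerical equivalence
-/

set_option linter.unusedSectionVars false

open CategoryTheory Limits MonoidalCategory Triangulated Pretriangulated

namespace Pool.Agent.W492.KC

open Pool.Agent.W492.MT (tpow tr)

universe v u v' u'

section
variable {T : Type u} [Category.{v} T] [MonoidalCategory T] [SymmetricCategory T]

/-- the permutation of the first two factors of `X ⊗ (X ⊗ Y)`. -/
def swp (X Y : T) : X ⊗ X ⊗ Y ⟶ X ⊗ X ⊗ Y :=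
  (α_ X X Y).inv ≫ (β_ X X).hom ▷ Y ≫ (α_ X X Y).hom

variable [Preadditive T]

/-- the signed sum (with sign `ε ^ length`) of the permutations moving the first factor of
`X ⊗ X^{⊗ n}` to the right. -/
def gins (ε : ℤ) (X : T) : ∀ n : ℕ, X ⊗ tpow X n ⟶ X ⊗ tpow X n
  | 0 => 𝟙 _
  | n + 1 => 𝟙 _ + ε • (swp X (tpow X n) ≫ (X ◁ gins ε X n))

/-- the signed sum (with sign `ε ^ length`) of all the permutations of the factors of
`X^{⊗ n}`. -/
def gsym (ε : ℤ) (X : T) : ∀ n : ℕ, tpow X n ⟶ tpow X n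
  | 0 => 𝟙 _
  | n + 1 => (X ◁ gsym ε X n) ≫ gins ε X n

/-- the permutation of `Fin (n + 1)` fixing `0` and acting as `σ` on the other elements. -/
def up {n : ℕ} (σ : Equiv.Perm (Fin n)) : Equiv.Perm (Fin (n + 1)) :=
  Equiv.Perm.decomposeFin.symm (0, σ)

/-- `φ` is the action of the symmetric groups on the tensor powers of `X` by permutation of the
factors. -/
structure PermAction (X : T) (φ : ∀ n : ℕ, Equiv.Perm (Fin n) →* End (tpow X n)) : Prop where
  up : ∀ (n : ℕ) (σ : Equiv.Perm (Fin n)),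
    φ (n + 1) (up σ) = (X ◁ (φ n σ : tpow X n ⟶ tpow X n) : X ⊗ tpow X n ⟶ X ⊗ tpow X n)
  swap : ∀ n : ℕ, φ (n + 2) (Equiv.swap 0 1) = swp X (tpow X n)

/-- `X` is evenly finite dimensional : some exterior power vanishes. -/
def EvenFin (X : T) : Prop := ∃ n, gsym (-1) X n = 0

/-- `X` is oddly finite dimensional : some symmetric power vanishes. -/
def OddFin (X : T) : Prop := ∃ n, gsym 1 X n = 0

end

section
variable {T : Type u} [Category.{v} T] [HasShift T ℤ] [Preadditive T]
  {𝒜 : Type u'} [Category.{v'} 𝒜] [Abelian 𝒜] (H : T ⥤ 𝒜)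

/-- the morphism `f` is zero on the cohomology objects `H^n = H(-⟦n⟧)`. -/
def HomTriv {X Y : T} (f : X ⟶ Y) : Prop := ∀ n : ℤ, H.map (f⟦n⟧') = 0

/-- the cohomology of `X` is zero. -/
def Acyclic (X : T) : Prop := ∀ n : ℤ, IsZero (H.obj (X⟦n⟧))

/-- the cohomology of `X` is concentrated in even degrees. -/
def Even (X : T) : Prop := ∀ n : ℤ, IsZero (H.obj (X⟦2 * n + 1⟧))

/-- the cohomology of `X` is concentrated in odd degrees. -/
def Odd (X : T) : Prop := ∀ n : ℤ, IsZero (H.obj (X⟦2 * n⟧))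

/-- `P` is a parity operator of `X` : it is the identity on the cohomology in even degrees and minus
the identity on the cohomology in odd degrees. -/
def Parity {X : T} (P : X ⟶ X) : Prop :=
  (∀ n : ℤ, H.map (P⟦2 * n⟧') = 𝟙 _) ∧ ∀ n : ℤ, H.map (P⟦2 * n + 1⟧') = - 𝟙 _

/-- The cohomology is conservative : an object without cohomology is zero. -/
def Conservative : Prop := ∀ X : T, Acyclic H X → IsZero X

end

variable {T : Type u} [Category.{v} T] [HasZeroObject T] [HasShift T ℤ] [Preadditive T]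
  [∀ n : ℤ, (shiftFunctor T n).Additive] [Pretriangulated T]
  [MonoidalCategory T] [SymmetricCategory T] [RightRigidCategory T]
  {𝒜 : Type u'} [Category.{v'} 𝒜] [Abelian 𝒜] (H : T ⥤ 𝒜)
  (W : ℤ → ObjectProperty 𝒜) (𝒞 : ObjectProperty T)

/-- The formal properties of the category `T` of constructible motives, of its (mixed Hodge)
cohomology `H^n = H(-⟦n⟧)`, of the class `W k` of the objects of the abelian category `𝒜` with
weights `≥ k`, and of the class `𝒞` of Chow motives. -/
structure Setup (F : Type) [Field F] [Linear F T] : Prop where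
  /-- the endomorphisms of the unit of `T` are scalars -/
  scalar : ∀ e : 𝟙_ T ⟶ 𝟙_ T, ∃ a : F, e = a • 𝟙 _
  one_mem : 𝒞 (𝟙_ T)
  tensor_mem : ∀ X Y, 𝒞 X → 𝒞 Y → 𝒞 (X ⊗ Y)
  dual_mem : ∀ X, 𝒞 X → 𝒞 Xᘁ
  sum_mem : ∀ X Y, 𝒞 X → 𝒞 Y → 𝒞 (X ⊞ Y)
  retract_mem : ∀ X Y, 𝒞 Y → Nonempty (Retract X Y) → 𝒞 X
  /-- orthogonality -/
  orth : ∀ X Y, 𝒞 X → 𝒞 Y → ∀ m : ℤ, 0 < m → ∀ f : X ⟶ Y⟦m⟧, f = 0
  /-- `𝒞` generates the triangulated category `T` -/
  gen : ∀ P : ObjectProperty T, P.IsClosedUnderIsomorphisms → P.IsTriangulated →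
    (∀ X, 𝒞 X → P X) → ∀ X, P X
  /-- the cohomology of the unit is a simple object in degree `0` -/
  unit_simple : Simple (H.obj (𝟙_ T))
  unit_deg : ∀ n : ℤ, n ≠ 0 → IsZero (H.obj ((𝟙_ T)⟦n⟧))
  /-- the objects with weights `≥ k` form a Serre class, decreasing with `k` -/
  serre : ∀ k, (W k).IsSerreClass
  anti : ∀ k, W (k + 1) ≤ W k
  /-- the cohomology in degree `n` of a Chow motive is pure of weight `n` -/
  weight : ∀ X, 𝒞 X → ∀ n : ℤ, W n (H.obj (X⟦n⟧))
  pure : ∀ X, 𝒞 X → ∀ (n : ℤ) (A : 𝒜), W (n + 1) A → ∀ f : H.obj (X⟦n⟧) ⟶ A, f = 0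
  /-- Kuenneth formula : the morphisms zero on cohomology form a tensor ideal -/
  ideal : ∀ (X Y Z : T) (f : Y ⟶ Z), HomTriv H f → HomTriv H (X ◁ f)
  /-- Kuenneth formula : an object has even cohomology if and only if the cohomology of some
  exterior power vanishes -/
  even_iff : ∀ X : T, Even H X ↔ ∃ n, HomTriv H (gsym (-1) X n)
  /-- Kuenneth formula : an object has odd cohomology if and only if the cohomology of some
  symmetric power vanishes -/
  odd_iff : ∀ X : T, Odd H X ↔ ∃ n, HomTriv H (gsym 1 X n)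
  /-- the cohomology of `X` is finite dimensional, so that for some `n` the action of the
  symmetric group `S_n` on the cohomology of `X^{⊗ n}` satisfies a linear relation -/
  schur : ∀ X, 𝒞 X → ∀ φ, PermAction X φ →
    ∃ (n : ℕ) (c : Equiv.Perm (Fin n) → F), c ≠ 0 ∧ HomTriv H (∑ σ, c σ • (φ n σ : tpow X n ⟶ _))
  /-- Kuenneth formula : the tensor product of parity operators is a parity operator -/
  parity : ∀ (X Y : T) (P : X ⟶ X) (Q : Y ⟶ Y), Parity H P → Parity H Q → Parity H (P ⊗ₘ Q)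
  /-- if `P` is a parity operator and `e` is idempotent, then the trace of `e ≫ P` is the dimension
  of the cohomology of the image of `e` -/
  rank : ∀ X, 𝒞 X → ∀ P : X ⟶ X, Parity H P → ∀ e : X ⟶ X, e ≫ e = e → tr (e ≫ P) = 0 →
    HomTriv H e
  /-- the trace form on `End X` has finite rank -/
  finRank : ∀ X, 𝒞 X → ∃ (r : ℕ) (b : Fin r → (X ⟶ X)), ∀ a : X ⟶ X,
    (∀ j, tr (b j ≫ a) = 0) → ∀ c : X ⟶ X, tr (c ≫ a) = 0
  /-- an endomorphism which is nilpotent on the cohomology has trace `0` -/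
  trNil : ∀ X, 𝒞 X → ∀ (c : End X) (n : ℕ), HomTriv H (X := X) (Y := X) (c ^ n) →
    tr (X := X) c = 0

/-- The cohomology is conservative on Chow motives : a morphism of Chow motives which is an
isomorphism on cohomology is an isomorphism. -/
def ChowConservative : Prop :=
  ∀ X Y, 𝒞 X → 𝒞 Y → ∀ f : X ⟶ Y, (∀ n : ℤ, IsIso (H.map (f⟦n⟧'))) → IsIso f

/-- The endomorphisms `f` of Chow motives which are zero on cohomology are quasi-regular : `1 - f` is
invertible. -/
def Quasi : Prop := ∀ X, 𝒞 X → ∀ f : X ⟶ X, HomTriv H f → IsIso (𝟙 X - f)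

/-- The sign conjecture : every Chow motive has a parity operator. -/
def Sign : Prop := ∀ X, 𝒞 X → ∃ P : X ⟶ X, Parity H P

/-- The sign decomposition : every Chow motive is the sum of Chow motives with even and odd
cohomology. -/
def SignSum : Prop :=
  ∀ X, 𝒞 X → ∃ A B : T, 𝒞 A ∧ 𝒞 B ∧ Even H A ∧ Odd H B ∧ Nonempty (X ≅ A ⊞ B)

/-- Nilpotence : the endomorphisms of Chow motives which are zero on cohomology are nilpotent. -/
def Nilp : Prop :=
  ∀ X, 𝒞 X → ∀ f : End X, HomTriv H (X := X) (Y := X) f → IsNilpotent f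

/-- Kimura's conjecture : every Chow motive is the sum of an evenly and an oddly finite
dimensional one. -/
def Kimura : Prop :=
  ∀ X, 𝒞 X → ∃ A B : T, 𝒞 A ∧ 𝒞 B ∧ EvenFin A ∧ OddFin B ∧ Nonempty (X ≅ A ⊞ B)

/-- Homological and numerical equivalence agree : a morphism from a Chow motive to the unit which
is nonzero on cohomology has a nonzero composition with some morphism from the unit. -/
def HomEqNum : Prop :=
  ∀ X, 𝒞 X → ∀ g : X ⟶ 𝟙_ T, ¬ HomTriv H g → ∃ x : 𝟙_ T ⟶ X, x ≫ g ≠ 0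

end Pool.Agent.W492.KC
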