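import Pool.Agent.W492.KC.Defs
import Pool.Agent.W492.PC.Main

/-!
# Conservativity and the sign decomposition imply Kimura finiteness and hom = num
-/

set_option linter.unusedSectionVars false
set_option linter.style.haveILetI false

open CategoryTheory Limits MonoidalCategory Triangulated Pretriangulated ZeroObject

namespace Pool.Agent.W492.KC

open Pool.Agent.W492.MT (tpow tr)

open Pool.Agent.W492.TS Pool.Agent.W492.PC

universe v u v' u'

section
variable {T : Type u} [Category.{v} T] [HasZeroObject T] [HasShift T ℤ] [Preadditive T]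
  [∀ n : ℤ, (shiftFunctor T n).Additive] [Pretriangulated T]
  {𝒜 : Type u'} [Category.{v'} 𝒜] [Abelian 𝒜] {H : T ⥤ 𝒜} [H.IsHomological]

theorem HomTriv.comp_left {X Y Z : T} {f : X ⟶ Y} (hf : HomTriv H f) (g : Y ⟶ Z) :
    HomTriv H (f ≫ g) := fun n => by
  rw [Functor.map_comp, Functor.map_comp, hf n, zero_comp]

theorem HomTriv.comp_right {X Y Z : T} {g : Y ⟶ Z} (hg : HomTriv H g) (f : X ⟶ Y) :
    HomTriv H (f ≫ g) := fun n => by
  rw [Functor.map_comp, Functor.map_comp, hg n, comp_zero]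

theorem HomTriv.add {X Y : T} {f g : X ⟶ Y} (hf : HomTriv H f) (hg : HomTriv H g) :
    HomTriv H (f + g) := fun n => by
  rw [Functor.map_add, Functor.map_add, hf n, hg n, add_zero]

theorem HomTriv.neg {X Y : T} {f : X ⟶ Y} (hf : HomTriv H f) :
    HomTriv H (-f) := fun n => by
  rw [Functor.map_neg, Functor.map_neg, hf n, neg_zero]

theorem HomTriv.sub {X Y : T} {f g : X ⟶ Y} (hf : HomTriv H f) (hg : HomTriv H g) :
    HomTriv H (f - g) := by
  rw [sub_eq_add_neg]
  exact hf.add hg.neg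

theorem HomTriv.zero (X Y : T) : HomTriv H (0 : X ⟶ Y) := fun n => by
  rw [Functor.map_zero, Functor.map_zero]

theorem Acyclic.homTriv_left {X Y : T} (hX : Acyclic H X) (f : X ⟶ Y) : HomTriv H f :=
  fun n => (hX n).eq_of_src _ _

theorem acyclic_of_homTriv_id {X : T} (h : HomTriv H (𝟙 X)) : Acyclic H X := fun n => by
  rw [IsZero.iff_id_eq_zero, ← CategoryTheory.Functor.map_id, ← CategoryTheory.Functor.map_id,
    h n]

theorem isIso_of_conservative (hc : Conservative H) {X Y : T} {f : X ⟶ Y}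
    (hf : ∀ n : ℤ, IsIso (H.map (f⟦n⟧'))) : IsIso f := by
  letI := Functor.ShiftSequence.tautological H ℤ
  have h1 : H.homologicalKernel.trW f := (H.mem_homologicalKernel_trW_iff f).2 hf
  obtain ⟨Z, g, h, hT, hZ⟩ := h1
  exact (Triangle.isZero₃_iff_isIso₁ _ hT).1 (hc Z hZ)

theorem isIso_sub (hc : Conservative H) {X : T} {e f : X ⟶ X} (he : IsIso e)
    (hf : HomTriv H f) : IsIso (e - f) := by
  refine isIso_of_conservative hc fun n => ?_
  rw [Functor.map_sub, Functor.map_sub, hf n, sub_zero]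
  infer_instance

end

section
variable {T : Type u} [Category.{v} T] [MonoidalCategory T] [SymmetricCategory T]
  [Preadditive T]

theorem gins_one (X : T) (n : ℕ) : gins 1 X n = MT.ins X n := by
  induction n with
  | zero => rfl
  | succ n ih =>
    change 𝟙 _ + (1 : ℤ) • (swp X (tpow X n) ≫ (X ◁ gins 1 X n)) = _
    rw [ih, one_smul]
    rfl

theorem gsym_one (X : T) (n : ℕ) : gsym 1 X n = MT.symm X n := by
  induction n with
  | zero => rfl
  | succ n ih =>
    change (X ◁ gsym 1 X n) ≫ gins 1 X n = _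
    rw [ih, gins_one]
    rfl

end

variable {T : Type u} [Category.{v} T] [HasZeroObject T] [HasShift T ℤ] [Preadditive T]
  [∀ n : ℤ, (shiftFunctor T n).Additive] [Pretriangulated T] [IsTriangulated T]
  [MonoidalCategory T] [SymmetricCategory T] [RightRigidCategory T] [MonoidalPreadditive T]
  {𝒜 : Type u'} [Category.{v'} 𝒜] [Abelian 𝒜] {H : T ⥤ 𝒜} [H.IsHomological]
  {W : ℤ → ObjectProperty 𝒜} {𝒞 : ObjectProperty T}
  {F : Type} [Field F] [CharZero F] [Linear F T]

/-- The symmetrisation operators are idempotent up to the factor `n!`. -/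
def Idem (T : Type u) [Category.{v} T] [Preadditive T] [MonoidalCategory T]
    [SymmetricCategory T] : Prop :=
  ∀ (ε : ℤ), ε * ε = 1 → ∀ (X : T) (n : ℕ),
    gsym ε X n ≫ gsym ε X n = n.factorial • gsym ε X n

theorem gsym_eq_zero (F : Type) [Field F] [CharZero F] [Linear F T] (hI : Idem T) (hc : Conservative H) {ε : ℤ} (hε : ε * ε = 1) {X : T}
    {n : ℕ} (h : HomTriv H (gsym ε X n)) : gsym ε X n = 0 := by
  have h1 : IsIso (n.factorial • 𝟙 (tpow X n)) := isIso_nsmul F (tpow X n) n.factorial_ne_zero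
  have h2 : IsIso (n.factorial • 𝟙 (tpow X n) - gsym ε X n) := isIso_sub hc h1 h
  rw [← cancel_mono (n.factorial • 𝟙 (tpow X n) - gsym ε X n), zero_comp,
    Preadditive.comp_sub, hI ε hε, Preadditive.comp_nsmul, Category.comp_id, sub_self]

theorem dpow_zero_of_homTriv (F : Type) [Field F] [CharZero F] [Linear F T] (hc : Conservative H) {X : T} (d : 𝟙_ T ⟶ X) {n : ℕ}
    (h : HomTriv H (gsym 1 X n)) : dpow d n = 0 := by
  have h1 : IsIso (n.factorial • 𝟙 (tpow X n)) := isIso_nsmul F (tpow X n) n.factorial_ne_zero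
  have h2 : IsIso (n.factorial • 𝟙 (tpow X n) - gsym 1 X n) := isIso_sub hc h1 h
  rw [← cancel_mono (n.factorial • 𝟙 (tpow X n) - gsym 1 X n), zero_comp, Preadditive.comp_sub,
    gsym_one, dpow_symm, Preadditive.comp_nsmul, Category.comp_id, sub_self]

/-- conservativity and the decomposition into even and odd parts imply Kimura finiteness. -/
theorem Setup.kimura (hS : Setup H W 𝒞 F) (hI : Idem T) (hc : Conservative H)
    (hsign : SignSum H 𝒞) : Kimura 𝒞 := by
  intro X hX
  obtain ⟨A, B, hA, hB, hAe, hBo, e⟩ := hsign X hX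
  obtain ⟨n, hn⟩ := (hS.even_iff A).1 hAe
  obtain ⟨m, hm⟩ := (hS.odd_iff B).1 hBo
  exact ⟨A, B, hA, hB, ⟨n, gsym_eq_zero F hI hc (by norm_num) hn⟩,
    ⟨m, gsym_eq_zero F hI hc (by norm_num) hm⟩, e⟩

/-- Kimura's conjecture implies the decomposition into even and odd parts. -/
theorem Setup.sign_of_kimura (hS : Setup H W 𝒞 F) (hK : Kimura 𝒞) : SignSum H 𝒞 := by
  intro X hX
  obtain ⟨A, B, hA, hB, ⟨n, hn⟩, ⟨m, hm⟩, e⟩ := hK X hX
  refine ⟨A, B, hA, hB, (hS.even_iff A).2 ⟨n, ?_⟩, (hS.odd_iff B).2 ⟨m, ?_⟩, e⟩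
  · rw [hn]
    exact HomTriv.zero _ _
  · rw [hm]
    exact HomTriv.zero _ _

theorem Setup.homTriv_unit (hS : Setup H W 𝒞 F) {X : T} {g : X ⟶ 𝟙_ T}
    (h : H.map (g⟦(0 : ℤ)⟧') = 0) : HomTriv H g := by
  intro n
  by_cases hn : n = 0
  · subst hn
    exact h
  · exact (hS.unit_deg n hn).eq_of_tgt _ _

theorem Setup.epi_unit (hS : Setup H W 𝒞 F) {X : T} {g : X ⟶ 𝟙_ T} (h : ¬ HomTriv H g)
    (n : ℤ) : Epi (H.map (g⟦n⟧')) := by
  by_cases hn : n = 0
  · subst hn
    have h1 : H.map (g⟦(0 : ℤ)⟧') ≠ 0 := fun h0 => h (hS.homTriv_unit h0)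
    haveI := hS.unit_simple
    haveI : Simple (H.obj ((𝟙_ T)⟦(0 : ℤ)⟧)) := by
      have e : H.obj ((𝟙_ T)⟦(0 : ℤ)⟧) ≅ H.obj (𝟙_ T) :=
        H.mapIso ((shiftFunctorZero T ℤ).app (𝟙_ T))
      exact Simple.of_iso e
    exact epi_of_nonzero_to_simple h1
  · exact (hS.unit_deg n hn).epi _

section
variable [∀ X : T, (tensorLeft X).CommShift ℤ] [∀ X : T, (tensorLeft X).IsTriangulated]

theorem Setup.tpow_mem (hS : Setup H W 𝒞 F) {X : T} (hX : 𝒞 X) (a : ℕ) : 𝒞 (tpow X a) := by
  induction a with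
  | zero => exact hS.one_mem
  | succ a ih => exact hS.tensor_mem _ _ hX ih

theorem Setup.pos (hS : Setup H W 𝒞 F) {X : T} (hX : 𝒞 X) : Pos X (X⟦(1 : ℤ)⟧) := by
  intro a m f
  have h1 : 𝒞 (tpow X a ⊗ X) := hS.tensor_mem _ _ (hS.tpow_mem hX a) hX
  refine hom_zero_of_iso ?_ (hS.orth _ _ hS.one_mem h1 (1 + m) (by positivity)) f
  exact (shiftIso (tpow X a ⊗ X) 1 m (1 + m) rfl).symm ≪≫
    (shiftFunctor T (m : ℤ)).mapIso (((tensorLeft (tpow X a)).commShiftIso (1 : ℤ)).app X).symm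

/-- **The main point**: a morphism from an even Chow motive to the unit which is nonzero on
cohomology has a nonzero composition with some morphism from the unit. -/
theorem Setup.exists_point (hS : Setup H W 𝒞 F) (hc : Conservative H) {A : T} (hA : 𝒞 A)
    (hAe : Even H A) {g : A ⟶ 𝟙_ T} (hg : ¬ HomTriv H g) : ∃ x : 𝟙_ T ⟶ A, x ≫ g ≠ 0 := by
  obtain ⟨V, δ, k, hT⟩ := distinguished_cocone_triangle g
  have hV : Odd H V := by
    intro n
    letI := Functor.ShiftSequence.tautological H ℤ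
    have h1 := H.homologySequence_exact₃ _ hT (2 * n) (2 * n + 1) rfl
    have h2 : H.map (δ⟦2 * n⟧') = 0 := by
      have := (H.homologySequence_epi_shift_map_mor₁_iff _ hT (2 * n)).1
        (hS.epi_unit hg (2 * n))
      exact this
    exact h1.isZero_of_both_zeros h2 ((hAe n).eq_of_tgt _ _)
  obtain ⟨n, hn⟩ := (hS.odd_iff V).1 hV
  have h0 : 𝟙 (𝟙_ T) ≠ 0 := by
    intro h
    haveI := hS.unit_simple
    apply Simple.not_isZero (H.obj (𝟙_ T))
    rw [IsZero.iff_id_eq_zero, ← CategoryTheory.Functor.map_id, h, Functor.map_zero]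
  exact split_of_dpow hT (hS.pos hA) h0 n (dpow_zero_of_homTriv F hc δ hn)

/-- conservativity and the decomposition into even and odd parts imply hom = num. -/
theorem Setup.homEqNum (hS : Setup H W 𝒞 F) (hc : Conservative H) (hsign : SignSum H 𝒞) :
    HomEqNum H 𝒞 := by
  intro X hX g hg
  obtain ⟨A, B, hA, hB, hAe, hBo, ⟨e⟩⟩ := hsign X hX
  have h1 : HomTriv H (biprod.inr ≫ e.inv ≫ g) := by
    refine hS.homTriv_unit ?_
    exact IsZero.eq_of_src (hBo 0) _ _
  have h2 : ¬ HomTriv H (biprod.inl ≫ e.inv ≫ g) := by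
    intro h2
    apply hg
    have h3 : g = e.hom ≫ biprod.fst ≫ (biprod.inl ≫ e.inv ≫ g) +
        e.hom ≫ biprod.snd ≫ (biprod.inr ≫ e.inv ≫ g) := by
      have h4 : biprod.fst ≫ biprod.inl + biprod.snd ≫ biprod.inr = 𝟙 (A ⊞ B) :=
        biprod.total
      calc g = e.hom ≫ (biprod.fst ≫ biprod.inl + biprod.snd ≫ biprod.inr) ≫ e.inv ≫ g := by
            rw [h4]
            simp
        _ = _ := by
            simp only [Preadditive.add_comp, Preadditive.comp_add, Category.assoc]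
    rw [h3]
    exact ((h2.comp_right _).comp_right _).add ((h1.comp_right _).comp_right _)
  obtain ⟨x, hx⟩ := hS.exists_point hc hA hAe h2
  exact ⟨x ≫ biprod.inl ≫ e.inv, by simpa only [Category.assoc] using hx⟩

end

end Pool.Agent.W492.KC
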