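import Pool.Agent.W492.KC.Tower
import Pool.Agent.W225.KC.Nil
import Pool.Agent.W191.KCSym

/-!
# Kimura finiteness implies that the morphisms zero on cohomology are quasi-regular
-/

set_option linter.unusedSectionVars false
set_option linter.style.haveILetI false

open CategoryTheory Limits MonoidalCategory Triangulated Pretriangulated ZeroObject

namespace Pool.Agent.W492.KC

open Pool.Agent.W492.MT (tpow tr)

universe v u v' u'

variable {T : Type u} [Category.{v} T] [HasZeroObject T] [HasShift T ℤ] [Preadditive T]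
  [∀ n : ℤ, (shiftFunctor T n).Additive] [Pretriangulated T] [IsTriangulated T]
  [MonoidalCategory T] [SymmetricCategory T] [RightRigidCategory T] [MonoidalPreadditive T]
  {𝒜 : Type u'} [Category.{v'} 𝒜] [Abelian 𝒜] {H : T ⥤ 𝒜} [H.IsHomological]
  {W : ℤ → ObjectProperty 𝒜} {𝒞 : ObjectProperty T}
  {F : Type} [Field F] [CharZero F] [Linear F T]

theorem idem : Idem T := fun ε hε X n => Pool.Agent.W191.KCSym.gsym_gsym ε hε X n

theorem homTriv_pow {X : T} {f : End X} (hf : HomTriv H (X := X) (Y := X) f) (k : ℕ) :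
    HomTriv H (X := X) (Y := X) (f ^ (k + 1)) := by
  rw [pow_succ]
  exact HomTriv.comp_left (f := (f : X ⟶ X)) hf _

theorem Setup.unit_ne (hS : Setup H W 𝒞 F) : (𝟙 (𝟙_ T) : 𝟙_ T ⟶ 𝟙_ T) ≠ 0 := by
  intro h
  apply hS.unit_not_triv
  rw [h]
  exact HomTriv.zero _ _

/-- on an evenly or oddly finite dimensional object, the endomorphisms which are zero on cohomology
are nilpotent of bounded index. -/
theorem Setup.nil_of_gsym (hS : Setup H W 𝒞 F) {ε : ℤ} (hε : ε * ε = 1) {X : T} {n : ℕ}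
    (h : gsym ε X n = 0) {f : End X} (hf : HomTriv H (X := X) (Y := X) f) : f ^ n = 0 := by
  cases n with
  | zero => exact absurd h hS.unit_ne
  | succ n =>
    have h1 : f ^ n = 0 := Pool.Agent.W225.KC.kimura_nil F ε hε f
      (fun k => hS.tr_zero (homTriv_pow hf k)) n h
    rw [pow_succ, h1, zero_mul]

theorem Setup.isIso_of_gsym (hS : Setup H W 𝒞 F) {ε : ℤ} (hε : ε * ε = 1) {X : T} {n : ℕ}
    (h : gsym ε X n = 0) {f : X ⟶ X} (hf : HomTriv H f) : IsIso (𝟙 X - f) := by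
  let f' : End X := f
  have h1 : IsNilpotent f' := ⟨n, hS.nil_of_gsym hε h hf⟩
  have h2 : IsUnit (1 - f') := h1.isUnit_one_sub
  exact (isUnit_iff_isIso (1 - f' : End X)).1 h2

theorem Setup.quasi_of_kimura (hS : Setup H W 𝒞 F) (hK : Kimura 𝒞) : Quasi H 𝒞 := by
  intro X hX f hf
  obtain ⟨A, B, -, -, ⟨n, hn⟩, ⟨m, hm⟩, ⟨e⟩⟩ := hK X hX
  let g : A ⊞ B ⟶ A ⊞ B := e.inv ≫ (𝟙 X - f) ≫ e.hom
  have hg : g = 𝟙 _ - e.inv ≫ f ≫ e.hom := by
    simp [g, Preadditive.sub_comp, Preadditive.comp_sub]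
  have hfe : HomTriv H (e.inv ≫ f ≫ e.hom) := (hf.comp_left _).comp_right _
  have h11 : biprod.inl ≫ g ≫ biprod.fst =
      𝟙 A - biprod.inl ≫ (e.inv ≫ f ≫ e.hom) ≫ biprod.fst := by
    rw [hg, Preadditive.sub_comp, Preadditive.comp_sub, Category.id_comp, biprod.inl_fst]
  haveI h1 : IsIso (biprod.inl ≫ g ≫ biprod.fst) := by
    rw [h11]
    exact hS.isIso_of_gsym (by norm_num) hn ((hfe.comp_left _).comp_right _)
  have h12 : biprod.inl ≫ g ≫ biprod.snd =
      - (biprod.inl ≫ (e.inv ≫ f ≫ e.hom) ≫ biprod.snd) := by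
    rw [hg, Preadditive.sub_comp, Preadditive.comp_sub, Category.id_comp, biprod.inl_snd, zero_sub]
  have h22 : biprod.inr ≫ g ≫ biprod.snd =
      𝟙 B - biprod.inr ≫ (e.inv ≫ f ≫ e.hom) ≫ biprod.snd := by
    rw [hg, Preadditive.sub_comp, Preadditive.comp_sub, Category.id_comp, biprod.inr_snd]
  have hgg : IsIso g := by
    rw [← Biprod.ofComponents_eq g]
    let L : A ⊞ B ≅ A ⊞ B :=
      Biprod.unipotentLower (-(biprod.inr ≫ g ≫ biprod.fst) ≫ inv (biprod.inl ≫ g ≫ biprod.fst))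
    let R : A ⊞ B ≅ A ⊞ B :=
      Biprod.unipotentUpper (-inv (biprod.inl ≫ g ≫ biprod.fst) ≫ (biprod.inl ≫ g ≫ biprod.snd))
    have h3 := (Biprod.gaussian' (biprod.inl ≫ g ≫ biprod.fst) (biprod.inl ≫ g ≫ biprod.snd)
      (biprod.inr ≫ g ≫ biprod.fst) (biprod.inr ≫ g ≫ biprod.snd)).2.2.2
    have h4 : IsIso ((biprod.inr ≫ g ≫ biprod.snd) - (biprod.inr ≫ g ≫ biprod.fst) ≫
        inv (biprod.inl ≫ g ≫ biprod.fst) ≫ (biprod.inl ≫ g ≫ biprod.snd)) := by
      rw [h22, sub_sub, h12]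
      refine hS.isIso_of_gsym (by norm_num) hm (((hfe.comp_left _).comp_right _).add ?_)
      exact (((hfe.comp_left _).comp_right _).neg.comp_right _).comp_right _
    have h5 : L.hom ≫ Biprod.ofComponents (biprod.inl ≫ g ≫ biprod.fst)
        (biprod.inl ≫ g ≫ biprod.snd) (biprod.inr ≫ g ≫ biprod.fst)
        (biprod.inr ≫ g ≫ biprod.snd) ≫ R.hom = biprod.map (biprod.inl ≫ g ≫ biprod.fst)
        ((biprod.inr ≫ g ≫ biprod.snd) - (biprod.inr ≫ g ≫ biprod.fst) ≫
        inv (biprod.inl ≫ g ≫ biprod.fst) ≫ (biprod.inl ≫ g ≫ biprod.snd)) := h3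
    have h6 : Biprod.ofComponents (biprod.inl ≫ g ≫ biprod.fst)
        (biprod.inl ≫ g ≫ biprod.snd) (biprod.inr ≫ g ≫ biprod.fst)
        (biprod.inr ≫ g ≫ biprod.snd) = L.inv ≫ biprod.map (biprod.inl ≫ g ≫ biprod.fst)
        ((biprod.inr ≫ g ≫ biprod.snd) - (biprod.inr ≫ g ≫ biprod.fst) ≫
        inv (biprod.inl ≫ g ≫ biprod.fst) ≫ (biprod.inl ≫ g ≫ biprod.snd)) ≫ R.inv := by
      rw [← h5]
      simp
    rw [h6]
    haveI h8 := (biprod.mapIso (@asIso _ _ _ _ (biprod.inl ≫ g ≫ biprod.fst) h1)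
      (@asIso _ _ _ _ _ h4)).isIso_hom
    exact @IsIso.comp_isIso _ _ _ _ _ _ _ _ (@IsIso.comp_isIso _ _ _ _ _ _ _ h8 _)
  have h7 : 𝟙 X - f = e.hom ≫ g ≫ e.inv := by simp [g]
  rw [h7]
  infer_instance

/-- a morphism of Chow motives which is an isomorphism on cohomology is an isomorphism. -/
theorem Setup.chowConservative [MonoidalLinear F T] (hS : Setup H W 𝒞 F) (hD : HomEqNum H 𝒞)
    (hQ : Quasi H 𝒞) : ChowConservative H 𝒞 := by
  intro X Y hX hY f hf
  obtain ⟨h, hh⟩ := hS.exists_quasi' hD hX hY f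
  have h1 : HomTriv H (𝟙 Y - h ≫ f) := by
    intro n
    haveI := hf n
    rw [← cancel_epi (H.map (f⟦n⟧')), comp_zero, ← Functor.map_comp, ← Functor.map_comp,
      Preadditive.comp_sub, Category.comp_id]
    have h2 := hh.neg n
    rwa [neg_sub] at h2
  have h2 : HomTriv H (𝟙 X - f ≫ h) := by
    intro n
    haveI := hf n
    rw [← cancel_mono (H.map (f⟦n⟧')), zero_comp, ← Functor.map_comp, ← Functor.map_comp,
      Preadditive.sub_comp, Category.id_comp, Category.assoc]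
    have h2 := hh.neg n
    rwa [neg_sub] at h2
  have h3 : IsIso (h ≫ f) := by
    have := hQ Y hY _ h1
    rwa [sub_sub_cancel] at this
  have h4 : IsIso (f ≫ h) := by
    have := hQ X hX _ h2
    rwa [sub_sub_cancel] at this
  haveI : Mono f := mono_of_mono f h
  haveI : IsSplitEpi f := IsSplitEpi.mk' ⟨inv (h ≫ f) ≫ h, by
    rw [Category.assoc, IsIso.inv_hom_id]⟩
  exact isIso_of_mono_of_isSplitEpi f

theorem quasi_of_chowConservative (hC : ChowConservative H 𝒞) : Quasi H 𝒞 := by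
  intro X hX f hf
  refine hC X X hX hX _ fun n => ?_
  rw [Functor.map_sub, Functor.map_sub, hf n, sub_zero]
  infer_instance

theorem quasi_of_nilp (hN : Nilp H 𝒞) : Quasi H 𝒞 := by
  intro X hX f hf
  let f' : End X := f
  have h1 : IsNilpotent f' := hN X hX f' hf
  have h2 : IsUnit (1 - f') := h1.isUnit_one_sub
  exact (isUnit_iff_isIso (1 - f' : End X)).1 h2

end Pool.Agent.W492.KC
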