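import Pool.Agent.W492.KC.Poly
import Pool.Agent.W492.KC.Kim
import Pool.Agent.W778.KC.LIFT

/-!
# Parity operators are algebraic
-/

set_option linter.unusedSectionVars false
set_option linter.style.haveILetI false

open CategoryTheory Limits MonoidalCategory Triangulated Pretriangulated ZeroObject

namespace Pool.Agent.W492.KC

open Pool.Agent.W492.MT (tpow tr)
open Pool.Agent.W492.PC (tr_add tr_smul)
open Pool.Agent.W239.KC (rpt rpt_right rpt_cyc rpt_whisker rpt_swp rpt_add)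
open Pool.Agent.W284.KCACT (D exists_D)

universe v u v' u'

section
variable {F : Type} [Field F] {n : ℕ}

theorem up_mul (a b : Equiv.Perm (Fin n)) : up (a * b) = up a * up b :=
  (Pool.Agent.W284.KCACT.up_mul_D0 a b).symm

theorem up_one : up (1 : Equiv.Perm (Fin n)) = 1 := by
  have h : up (1 : Equiv.Perm (Fin n)) * up 1 = up 1 := by rw [← up_mul, mul_one]
  exact mul_eq_left.1 h

theorem up_inv (a : Equiv.Perm (Fin n)) : (up a)⁻¹ = up a⁻¹ := by
  rw [inv_eq_iff_mul_eq_one, ← up_mul, mul_inv_cancel, up_one]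

theorem up_injective : Function.Injective (up : Equiv.Perm (Fin n) → _) := by
  intro a b h
  have h1 := Equiv.Perm.decomposeFin.symm.injective h
  exact (Prod.mk.inj h1).2

/-- the coefficients on the permutations fixing `0`. -/
noncomputable def res (c : MonoidAlgebra F (Equiv.Perm (Fin (n + 1)))) :
    MonoidAlgebra F (Equiv.Perm (Fin n)) :=
  .ofCoeff (c.coeff.comapDomain up (up_injective.injOn))

theorem coeff_res (c : MonoidAlgebra F (Equiv.Perm (Fin (n + 1)))) (τ : Equiv.Perm (Fin n)) :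
    (res c).coeff τ = c.coeff (up τ) := rfl

theorem coeff_single_mul_up (c : MonoidAlgebra F (Equiv.Perm (Fin (n + 1))))
    (a τ : Equiv.Perm (Fin n)) (r : F) :
    (MonoidAlgebra.single (up a) r * c).coeff (up τ) =
      (MonoidAlgebra.single a r * res c).coeff τ := by
  rw [MonoidAlgebra.coeff_single_mul_apply, MonoidAlgebra.coeff_single_mul_apply, coeff_res, up_inv, up_mul]

end

section
variable {T : Type u} [Category.{v} T] [Preadditive T] [MonoidalCategory T]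
  [SymmetricCategory T] [RightRigidCategory T] [MonoidalPreadditive T]
  {F : Type} [Field F] [Linear F T] [MonoidalLinear F T]

theorem rpt_smul (Z : T) {A B : T} (r : F) (g : A ⊗ Z ⟶ B ⊗ Z) :
    rpt Z (r • g) = r • rpt Z g := by
  simp [rpt]

/-- the partial trace as a linear map. -/
def rptL (F : Type) [Field F] [Linear F T] [MonoidalLinear F T] (Z A B : T) :
    (A ⊗ Z ⟶ B ⊗ Z) →ₗ[F] (A ⟶ B) where
  toFun := rpt Z
  map_add' := rpt_add Z
  map_smul' := rpt_smul Z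

/-- the trace as a linear map. -/
def trL (F : Type) [Field F] [Linear F T] [MonoidalLinear F T] (Z : T) :
    (Z ⟶ Z) →ₗ[F] (𝟙_ T ⟶ 𝟙_ T) where
  toFun := tr
  map_add' := tr_add
  map_smul' := tr_smul

variable {X : T} {φ : ∀ n : ℕ, Equiv.Perm (Fin n) →* End (tpow X n)}

/-- the representation of the group algebra. -/
noncomputable def rho (F : Type) [Field F] [Linear F T]
    (φ : ∀ n : ℕ, Equiv.Perm (Fin n) →* End (tpow X n)) (n : ℕ) :
    MonoidAlgebra F (Equiv.Perm (Fin n)) →ₐ[F] End (tpow X n) :=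
  MonoidAlgebra.lift F (End (tpow X n)) (Equiv.Perm (Fin n)) (φ n)

theorem rho_apply (n : ℕ) (c : MonoidAlgebra F (Equiv.Perm (Fin n))) :
    rho F φ n c = ∑ σ, c.coeff σ • φ n σ := by
  rw [rho, MonoidAlgebra.lift_apply, Finsupp.sum_fintype]
  intro σ
  rw [zero_smul]

theorem tr_rho (n : ℕ) (c : MonoidAlgebra F (Equiv.Perm (Fin n)))
    (p : tpow X n ⟶ tpow X n) :
    tr ((rho F φ n c : tpow X n ⟶ tpow X n) ≫ p) =
      ∑ σ, c.coeff σ • tr ((φ n σ : tpow X n ⟶ tpow X n) ≫ p) := by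
  have h1 : (rho F φ n c : tpow X n ⟶ tpow X n) ≫ p =
      ∑ σ, c.coeff σ • ((φ n σ : tpow X n ⟶ tpow X n) ≫ p) := by
    rw [rho_apply]
    have h2 : (∑ σ, c.coeff σ • φ n σ : End (tpow X n)) =
      (∑ σ, c.coeff σ • (φ n σ : tpow X n ⟶ tpow X n) : tpow X n ⟶ tpow X n) := rfl
    rw [h2, Preadditive.sum_comp]
    exact Finset.sum_congr rfl fun σ _ => Linear.smul_comp _ _ _ _ _ _
  rw [h1]
  have h3 := map_sum (trL F (tpow X n))
    (fun σ => c.coeff σ • ((φ n σ : tpow X n ⟶ tpow X n) ≫ p)) Finset.univ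
  refine h3.trans (Finset.sum_congr rfl fun σ _ => ?_)
  exact tr_smul _ _

theorem rpt_sum {ι : Type} [Fintype ι] {Z : T} (c : ι → F) (ψ : ι → (X ⊗ Z ⟶ X ⊗ Z))
    (q : X ⊗ Z ⟶ X ⊗ Z) :
    rpt Z ((∑ i, c i • ψ i) ≫ q) = ∑ i, c i • rpt Z (ψ i ≫ q) := by
  rw [Preadditive.sum_comp]
  have h3 := map_sum (rptL F Z X X) (fun i => (c i • ψ i) ≫ q) Finset.univ
  refine h3.trans (Finset.sum_congr rfl fun i _ => ?_)
  rw [Linear.smul_comp]
  exact rpt_smul _ _ _

theorem rpt_rho (n : ℕ) (c : MonoidAlgebra F (Equiv.Perm (Fin (n + 1)))) (P : X ⟶ X) :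
    rpt (tpow X n) ((rho F φ (n + 1) c : X ⊗ tpow X n ⟶ X ⊗ tpow X n) ≫ (X ◁ pw P n)) =
      ∑ σ, c.coeff σ • Mσ φ P n σ :=
  (congrArg (fun z : X ⊗ tpow X n ⟶ X ⊗ tpow X n => rpt (tpow X n) (z ≫ (X ◁ pw P n)))
    (rho_apply (n + 1) c)).trans
    (rpt_sum (fun σ => c.coeff σ) (fun σ => (φ (n + 1) σ : X ⊗ tpow X n ⟶ X ⊗ tpow X n)) _)

theorem scalar_unit {r : F} {e : 𝟙_ T ⟶ 𝟙_ T} (h : e = r • 𝟙 _) :
    (ρ_ X).inv ≫ (X ◁ e) ≫ (ρ_ X).hom = r • 𝟙 X := by
  rw [h]
  simp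

variable (hsc : ∀ e : 𝟙_ T ⟶ 𝟙_ T, ∃ a : F, e = a • 𝟙 _) (hφ : PermAction X φ)

include hsc hφ in
theorem exists_poly (P : End X) (n : ℕ) (σ : Equiv.Perm (Fin (n + 1))) :
    ∃ G : Polynomial F, Mσ φ P n σ = (Polynomial.aeval P G : End X) := by
  induction n with
  | zero =>
    have : σ = up 1 := by
      apply Equiv.ext
      intro x
      have h1 : ∀ y : Fin 1, y = 0 := fun y => Fin.ext (by omega)
      rw [h1 (σ x), h1 (up 1 x)]
    subst this
    obtain ⟨r, hr⟩ := hsc (tr ((φ 0 1 : tpow X 0 ⟶ tpow X 0) ≫ pw P 0))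
    refine ⟨Polynomial.C r, ?_⟩
    rw [Mσ_up hφ, scalar_unit hr, Polynomial.aeval_C, Algebra.algebraMap_eq_smul_one]
    rfl
  | succ n ih =>
    rcases exists_coset σ with ⟨τ, rfl⟩ | ⟨α, β, rfl⟩
    · obtain ⟨r, hr⟩ := hsc (tr ((φ (n + 1) τ : tpow X (n + 1) ⟶ tpow X (n + 1)) ≫
        pw P (n + 1)))
      refine ⟨Polynomial.C r, ?_⟩
      rw [Mσ_up hφ, scalar_unit hr, Polynomial.aeval_C, Algebra.algebraMap_eq_smul_one]
      rfl
    · obtain ⟨G, hG⟩ := ih (β * α)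
      refine ⟨Polynomial.X * G, ?_⟩
      rw [Mσ_coset hφ, hG, map_mul, Polynomial.aeval_X]
      rfl

include hsc hφ in
theorem exists_poly' (P : End X) (n : ℕ) (k : Fin n) (e : Equiv.Perm (Fin n)) :
    ∃ G : Polynomial F, Mσ φ P n (D k.succ e) = (P * Polynomial.aeval P G : End X) := by
  cases n with
  | zero => exact Fin.elim0 k
  | succ n =>
    have h1 : D k.succ e = up (Equiv.swap 0 k) * Equiv.swap 0 1 *
        up ((Equiv.swap 0 k)⁻¹ * e) := by
      have h2 : (1 : Fin (n + 2)) = (0 : Fin (n + 1)).succ := rfl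
      have h3 : up (Equiv.swap 0 k) * Equiv.swap 0 1 * up ((Equiv.swap 0 k)⁻¹ * e) =
          D 0 (Equiv.swap 0 k) * (Equiv.swap 0 1 * D 0 ((Equiv.swap 0 k)⁻¹ * e)) := by
        rw [mul_assoc]
        rfl
      rw [h3, Pool.Agent.W284.KCACT.swap_mul_D0, h2, Pool.Agent.W284.KCACT.up_mul_Ds,
        Equiv.swap_apply_left, mul_inv_cancel_left]
    obtain ⟨G, hG⟩ := exists_poly hsc hφ P n (((Equiv.swap 0 k)⁻¹ * e) * Equiv.swap 0 k)
    refine ⟨G, ?_⟩
    rw [h1, Mσ_coset hφ, hG]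
    rfl

include hsc hφ in
/-- If a linear combination of permutations of `X^{⊗ (n + 1)}` vanishes and `P` is not algebraic,
the trace of the part fixing one factor, twisted by `P`, vanishes. -/
theorem trace_zero (P : End X) (hP : ∀ f : Polynomial F, Polynomial.aeval P f = 0 → f = 0)
    (n : ℕ) (c : MonoidAlgebra F (Equiv.Perm (Fin (n + 1)))) (hc : rho F φ (n + 1) c = 0) :
    ∑ τ : Equiv.Perm (Fin n), c.coeff (up τ) •
      tr ((φ n τ : tpow X n ⟶ tpow X n) ≫ pw P n) = 0 := by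
  choose r hr using fun τ : Equiv.Perm (Fin n) =>
    hsc (tr ((φ n τ : tpow X n ⟶ tpow X n) ≫ pw P n))
  choose G hG using exists_poly' hsc hφ P n
  have h3 : rpt (tpow X n) ((0 : X ⊗ tpow X n ⟶ X ⊗ tpow X n) ≫ (X ◁ pw P n)) = 0 := by
    rw [zero_comp]
    exact map_zero (rptL F (tpow X n) X X)
  have h1 : (0 : X ⟶ X) = ∑ σ, c.coeff σ • Mσ φ P n σ :=
    ((congrArg (fun z : X ⊗ tpow X n ⟶ X ⊗ tpow X n => rpt (tpow X n) (z ≫ (X ◁ pw P n)))
      hc).trans h3).symm.trans (rpt_rho (φ := φ) n c P)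
  have h4 : ∑ σ, c.coeff σ • Mσ φ P n σ =
      ∑ e : Equiv.Perm (Fin n), c.coeff (D 0 e) • Mσ φ P n (D 0 e) +
      ∑ k : Fin n, ∑ e : Equiv.Perm (Fin n), c.coeff (D k.succ e) • Mσ φ P n (D k.succ e) := by
    rw [← Equiv.sum_comp Equiv.Perm.decomposeFin.symm, Fintype.sum_prod_type,
      Fin.sum_univ_succ]
    rfl
  have h5 : ∀ e : Equiv.Perm (Fin n), c.coeff (D 0 e) • Mσ φ P n (D 0 e) =
      (Polynomial.aeval P (Polynomial.C (c.coeff (up e) * r e)) : End X) := by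
    intro e
    rw [Polynomial.aeval_C, Algebra.algebraMap_eq_smul_one]
    have h6 : Mσ φ P n (D 0 e) = r e • 𝟙 X := (Mσ_up hφ P n e).trans (scalar_unit (hr e))
    rw [h6, smul_smul]
    rfl
  have h6 : ∀ (k : Fin n) (e : Equiv.Perm (Fin n)),
      c.coeff (D k.succ e) • Mσ φ P n (D k.succ e) =
      (Polynomial.aeval P (Polynomial.X * (c.coeff (D k.succ e) • G k e)) : End X) := by
    intro k e
    rw [hG, map_mul, Polynomial.aeval_X, map_smul, mul_smul_comm]
  have h7 : (Polynomial.aeval P (Polynomial.C (∑ e : Equiv.Perm (Fin n), c.coeff (up e) * r e) +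
      Polynomial.X * (∑ k : Fin n, ∑ e : Equiv.Perm (Fin n), c.coeff (D k.succ e) • G k e)) :
      End X) = 0 := by
    rw [map_add, map_sum Polynomial.C, map_sum, Finset.mul_sum, map_sum]
    simp only [Finset.mul_sum, map_sum]
    rw [Finset.sum_congr rfl fun e _ => (h5 e).symm,
      Finset.sum_congr rfl fun k _ => Finset.sum_congr rfl fun e _ => (h6 k e).symm]
    exact (h1.trans h4).symm
  have h8 := hP _ h7
  have h9 : ∑ e : Equiv.Perm (Fin n), c.coeff (up e) * r e = 0 := by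
    have := congrArg (fun f => Polynomial.coeff f 0) h8
    simpa using this
  have h10 : ∑ τ : Equiv.Perm (Fin n), c.coeff (up τ) •
      tr ((φ n τ : tpow X n ⟶ tpow X n) ≫ pw P n) =
      (∑ e : Equiv.Perm (Fin n), c.coeff (up e) * r e) • 𝟙 (𝟙_ T) := by
    rw [Finset.sum_smul]
    refine Finset.sum_congr rfl fun τ _ => ?_
    rw [hr τ, smul_smul]
  rw [h10, h9, zero_smul]

end

end Pool.Agent.W492.KC
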