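import Pool.Agent.W284.KC.Act
import Pool.Agent.W239.KC.Rpt

/-!
# Partial traces of permutations twisted by an endomorphism
-/

set_option linter.unusedSectionVars false
set_option linter.style.haveILetI false

open CategoryTheory Limits MonoidalCategory

namespace Pool.Agent.W492.KC

open Pool.Agent.W492.MT (tpow tr)
open Pool.Agent.W239.KC (rpt rpt_right rpt_cyc rpt_whisker rpt_swp rpt_add)

universe v u

variable {T : Type u} [Category.{v} T] [MonoidalCategory T] [SymmetricCategory T]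

/-- `P ⊗ (P ⊗ ⋯)` -/
def pw {X : T} (P : X ⟶ X) : ∀ n : ℕ, tpow X n ⟶ tpow X n
  | 0 => 𝟙 _
  | n + 1 => P ⊗ₘ pw P n

theorem pw_succ {X : T} (P : X ⟶ X) (n : ℕ) :
    (pw P (n + 1) : X ⊗ tpow X n ⟶ X ⊗ tpow X n) = (X ◁ pw P n) ≫ (P ▷ tpow X n) := by
  change P ⊗ₘ pw P n = _
  rw [MonoidalCategory.tensorHom_def']

theorem swp_pw {X : T} (P : X ⟶ X) (n : ℕ) :
    swp X (tpow X n) ≫ (P ⊗ₘ (P ⊗ₘ pw P n)) = (P ⊗ₘ (P ⊗ₘ pw P n)) ≫ swp X (tpow X n) := by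
  simp only [swp, Category.assoc]
  rw [← associator_naturality, associator_inv_naturality_assoc, ← tensorHom_id,
    MonoidalCategory.tensorHom_comp_tensorHom_assoc, MonoidalCategory.tensorHom_comp_tensorHom_assoc,
    Category.id_comp, Category.comp_id, BraidedCategory.braiding_naturality]

variable [Preadditive T] [MonoidalPreadditive T]

theorem exists_coset {n : ℕ} (σ : Equiv.Perm (Fin (n + 2))) :
    (∃ τ, σ = up τ) ∨ ∃ α β : Equiv.Perm (Fin (n + 1)), σ = up α * Equiv.swap 0 1 * up β := by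
  obtain ⟨p, e, rfl⟩ := Pool.Agent.W284.KCACT.exists_D σ
  refine Fin.cases ?_ (fun k => ?_) p
  · exact Or.inl ⟨e, rfl⟩
  · right
    refine ⟨Equiv.swap 0 k, (Equiv.swap 0 k)⁻¹ * e, ?_⟩
    have h1 : up (Equiv.swap 0 k) * Equiv.swap 0 1 * up ((Equiv.swap 0 k)⁻¹ * e) =
        Pool.Agent.W284.KCACT.D 0 (Equiv.swap 0 k) *
          (Equiv.swap 0 1 * Pool.Agent.W284.KCACT.D 0 ((Equiv.swap 0 k)⁻¹ * e)) := by
      rw [mul_assoc]
      rfl
    have h2 : (1 : Fin (n + 2)) = (0 : Fin (n + 1)).succ := rfl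
    rw [h1, Pool.Agent.W284.KCACT.swap_mul_D0, h2, Pool.Agent.W284.KCACT.up_mul_Ds,
      Equiv.swap_apply_left, mul_inv_cancel_left]

variable {X : T} {φ : ∀ n : ℕ, Equiv.Perm (Fin n) →* End (tpow X n)}

theorem comm_pw (hφ : PermAction X φ) (P : X ⟶ X) (n : ℕ)
    (σ : Equiv.Perm (Fin n)) :
    (φ n σ : tpow X n ⟶ tpow X n) ≫ pw P n = pw P n ≫ (φ n σ : tpow X n ⟶ tpow X n) := by
  induction n with
  | zero =>
    have h : pw P 0 = 𝟙 (tpow X 0) := rfl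
    rw [h, Category.comp_id, Category.id_comp]
  | succ n ih =>
    have hup : ∀ τ : Equiv.Perm (Fin n), (φ (n + 1) (up τ) : tpow X (n + 1) ⟶ tpow X (n + 1)) ≫
        pw P (n + 1) = pw P (n + 1) ≫ (φ (n + 1) (up τ) : tpow X (n + 1) ⟶ tpow X (n + 1)) := by
      intro τ
      rw [hφ.up]
      change (X ◁ (φ n τ : tpow X n ⟶ tpow X n)) ≫ (P ⊗ₘ pw P n) =
        (P ⊗ₘ pw P n) ≫ (X ◁ (φ n τ : tpow X n ⟶ tpow X n))
      rw [← id_tensorHom, MonoidalCategory.tensorHom_comp_tensorHom,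
        MonoidalCategory.tensorHom_comp_tensorHom, ih, Category.id_comp, Category.comp_id]
    cases n with
    | zero =>
      have : σ = up 1 := by
        apply Equiv.ext
        intro x
        have h1 : ∀ y : Fin 1, y = 0 := fun y => Fin.ext (by omega)
        rw [h1 (σ x), h1 (up 1 x)]
      rw [this]
      exact hup 1
    | succ n =>
      rcases exists_coset σ with ⟨τ, rfl⟩ | ⟨α, β, rfl⟩
      · exact hup τ
      · have h1 : (φ (n + 2) (up α * Equiv.swap 0 1 * up β) : tpow X (n + 2) ⟶ tpow X (n + 2)) =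
            (φ (n + 2) (up β) : tpow X (n + 2) ⟶ tpow X (n + 2)) ≫
              (φ (n + 2) (Equiv.swap 0 1) : tpow X (n + 2) ⟶ tpow X (n + 2)) ≫
              (φ (n + 2) (up α) : tpow X (n + 2) ⟶ tpow X (n + 2)) := by
          rw [map_mul, map_mul]
          rfl
        have h2 : (φ (n + 2) (Equiv.swap 0 1) : tpow X (n + 2) ⟶ tpow X (n + 2)) ≫
            pw P (n + 2) = pw P (n + 2) ≫
              (φ (n + 2) (Equiv.swap 0 1) : tpow X (n + 2) ⟶ tpow X (n + 2)) := by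
          rw [hφ.swap]
          exact swp_pw P n
        rw [h1, Category.assoc, Category.assoc, hup α, ← Category.assoc _ (pw P (n + 2)), h2,
          Category.assoc, ← Category.assoc _ (pw P (n + 2)), hup β, Category.assoc]

variable [RightRigidCategory T]

omit [SymmetricCategory T] [Preadditive T] [MonoidalPreadditive T] [RightRigidCategory T] in
theorem aux3 {Y : T} (b a p : Y ⟶ Y) (s : X ⊗ Y ⟶ X ⊗ Y) :
    ((X ◁ b) ≫ s ≫ (X ◁ a)) ≫ (X ◁ p) = (X ◁ b) ≫ (s ≫ (X ◁ (a ≫ p))) := by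
  simp

omit [SymmetricCategory T] [Preadditive T] [MonoidalPreadditive T] [RightRigidCategory T]
  [MonoidalCategory T] in
theorem aux5 {Y : T} (a b p ab q r : Y ⟶ Y) (h2 : ab = a ≫ b) (hp : p = q ≫ r)
    (hc : b ≫ p = p ≫ b) : (a ≫ p) ≫ b = (ab ≫ q) ≫ r := by
  rw [Category.assoc, ← hc, ← Category.assoc, ← h2, hp, Category.assoc]

omit [SymmetricCategory T] [Preadditive T] [MonoidalPreadditive T] [RightRigidCategory T] in
theorem aux4 {Y : T} (a b : Y ⟶ Y) (s : X ⊗ Y ⟶ X ⊗ Y) :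
    (s ≫ (X ◁ a)) ≫ (X ◁ b) = s ≫ (X ◁ (a ≫ b)) := by
  simp

/-- the partial trace of a permutation twisted by `P`. -/
def Mσ (φ : ∀ n : ℕ, Equiv.Perm (Fin n) →* End (tpow X n)) (P : X ⟶ X) (n : ℕ)
    (σ : Equiv.Perm (Fin (n + 1))) : X ⟶ X :=
  rpt (tpow X n) ((φ (n + 1) σ : X ⊗ tpow X n ⟶ X ⊗ tpow X n) ≫ (X ◁ pw P n))

theorem Mσ_up (hφ : PermAction X φ) (P : X ⟶ X) (n : ℕ) (τ : Equiv.Perm (Fin n)) :
    Mσ φ P n (up τ) = (ρ_ X).inv ≫ (X ◁ tr ((φ n τ : tpow X n ⟶ tpow X n) ≫ pw P n)) ≫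
      (ρ_ X).hom := by
  rw [Mσ, hφ.up]
  exact (congrArg (fun z => rpt (tpow X n) z) (MonoidalCategory.whiskerLeft_comp X
    (φ n τ : tpow X n ⟶ tpow X n) (pw P n)).symm).trans (rpt_whisker _ _ _)

theorem Mσ_coset (hφ : PermAction X φ) (P : X ⟶ X) (n : ℕ) (α β : Equiv.Perm (Fin (n + 1))) :
    Mσ φ P (n + 1) (up α * Equiv.swap 0 1 * up β) = Mσ φ P n (β * α) ≫ P := by
  have h1 : (φ (n + 2) (up α * Equiv.swap 0 1 * up β) :
      X ⊗ X ⊗ tpow X n ⟶ X ⊗ X ⊗ tpow X n) = (X ◁ (φ (n + 1) β : tpow X (n + 1) ⟶ _)) ≫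
        swp X (tpow X n) ≫ (X ◁ (φ (n + 1) α : tpow X (n + 1) ⟶ _)) := by
    rw [map_mul, map_mul, hφ.up, hφ.up, hφ.swap]
    rfl
  have h2 : (φ (n + 1) (β * α) : tpow X (n + 1) ⟶ tpow X (n + 1)) =
      (φ (n + 1) α : tpow X (n + 1) ⟶ _) ≫ (φ (n + 1) β : tpow X (n + 1) ⟶ _) := by
    rw [map_mul]
    rfl
  rw [Mσ, h1]
  have h3 := aux3 (X := X) (Y := tpow X (n + 1)) (φ (n + 1) β) (φ (n + 1) α) (pw P (n + 1))
    (swp X (tpow X n))
  have h5 := aux5 (Y := tpow X (n + 1)) (φ (n + 1) α) (φ (n + 1) β) (pw P (n + 1))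
    (φ (n + 1) (β * α)) (X ◁ pw P n) (P ▷ tpow X n) h2 (pw_succ P n) (comm_pw hφ P (n + 1) β)
  have h4 := (aux4 (X := X) (Y := tpow X (n + 1)) ((φ (n + 1) α : tpow X (n + 1) ⟶ _) ≫
    pw P (n + 1)) (φ (n + 1) β) (swp X (tpow X n))).trans
    (congrArg (fun z : tpow X (n + 1) ⟶ tpow X (n + 1) => swp X (tpow X n) ≫ (X ◁ z)) h5)
  have h6 := rpt_cyc (tpow X (n + 1)) (φ (n + 1) β : tpow X (n + 1) ⟶ tpow X (n + 1))
    (swp X (tpow X n) ≫ (X ◁ ((φ (n + 1) α : tpow X (n + 1) ⟶ tpow X (n + 1)) ≫ pw P (n + 1))))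
  have h7 := rpt_swp (X := X) (Z := tpow X n)
    (((φ (n + 1) (β * α) : X ⊗ tpow X n ⟶ X ⊗ tpow X n) ≫ (X ◁ pw P n)) ≫ (P ▷ tpow X n))
  rw [rpt_right] at h7
  refine (congrArg (fun z => rpt (tpow X (n + 1)) z) h3).trans ?_
  refine h6.trans ?_
  refine (congrArg (fun z => rpt (tpow X (n + 1)) z) h4).trans ?_
  exact h7

end Pool.Agent.W492.KC
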