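import Pool.Agent.W492.KC.Sgn
import Pool.Agent.W327.KCCorner

/-!
# Quasi-regularity and the sign conjecture are equivalent to Kimura's conjecture
-/

set_option linter.unusedSectionVars false
set_option linter.style.haveILetI false

open CategoryTheory Limits MonoidalCategory Triangulated Pretriangulated ZeroObject

namespace Pool.Agent.W492.KC

open Pool.Agent.W492.MT (tpow tr)

universe v u v' u'

theorem nilp_of_quasi {T : Type u} [Category.{v} T] [HasShift T ℤ]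
    [Preadditive T] [∀ n : ℤ, (shiftFunctor T n).Additive]
    {𝒜 : Type u'} [Category.{v'} 𝒜] [Abelian 𝒜] {H : T ⥤ 𝒜} [H.Additive]
    (F : Type) [Field F] [CharZero F] [Linear F T] {X : T} (P : End X)
    (hP : Parity H (X := X) P)
    (hq' : ∀ g : X ⟶ X, HomTriv H g → IsIso (𝟙 X - g))
    (f : Polynomial F) (hf : f ≠ 0) (h : Polynomial.aeval P f = 0) : IsNilpotent (P * P - 1) := by
  open Polynomial in
  obtain ⟨q, hq, hqd⟩ := Polynomial.exists_eq_pow_rootMultiplicity_mul_and_not_dvd f hf 1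
  have hq0 : q ≠ 0 := by rintro rfl; exact hqd (dvd_zero _)
  obtain ⟨g, hg, hgd⟩ := Polynomial.exists_eq_pow_rootMultiplicity_mul_and_not_dvd q hq0 (-1)
  set a := f.rootMultiplicity 1
  set b := q.rootMultiplicity (-1)
  have hg1 : g.eval 1 ≠ 0 := by
    intro h0
    apply hqd
    rw [hg]
    exact Dvd.dvd.mul_left (Polynomial.dvd_iff_isRoot.2 h0) _
  have hg2 : g.eval (-1) ≠ 0 := fun h0 => hgd (Polynomial.dvd_iff_isRoot.2 h0)
  have htriv : ∀ r : Polynomial F, r.eval 1 = 0 → r.eval (-1) = 0 →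
      HomTriv H (X := X) (Y := X) (Polynomial.aeval P r : End X) := by
    intro r h1 h2 n
    have hev : ∀ y : F, r.eval y = 0 → ∃ w : End X, Polynomial.aeval P r =
        (P - algebraMap F (End X) y) * w := by
      intro y hy
      obtain ⟨w, hw⟩ := Polynomial.X_sub_C_dvd_sub_C_eval (a := y) (p := r)
      refine ⟨Polynomial.aeval P w, ?_⟩
      have h1 := congrArg (Polynomial.aeval P) hw
      rw [map_sub, map_mul, map_sub, Polynomial.aeval_C, Polynomial.aeval_C, Polynomial.aeval_X,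
        hy, map_zero, sub_zero] at h1
      exact h1
    have hu : Pool.Agent.W778.KC.rho H X n (Polynomial.aeval P r) = 0 := by
      rcases Int.even_or_odd' n with ⟨k, rfl | rfl⟩
      · obtain ⟨w, hw⟩ := hev 1 h1
        rw [hw, map_mul, map_sub, Pool.Agent.W778.KC.rho_even hP, map_one, map_one, sub_self,
          zero_mul]
      · obtain ⟨w, hw⟩ := hev (-1) h2
        rw [hw, map_mul, map_sub, Pool.Agent.W778.KC.rho_odd hP, map_neg, map_one, map_neg,
          map_one, sub_self, zero_mul]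
    exact hu
  obtain ⟨s, hs1, hs2⟩ : ∃ s : Polynomial F, s.eval 1 * g.eval 1 = 1 ∧
      s.eval (-1) * g.eval (-1) = 1 := by
    refine ⟨Polynomial.C (((g.eval 1)⁻¹ + (g.eval (-1))⁻¹) / 2) +
      Polynomial.C (((g.eval 1)⁻¹ - (g.eval (-1))⁻¹) / 2) * Polynomial.X, ?_, ?_⟩
    · simp only [Polynomial.eval_add, Polynomial.eval_mul, Polynomial.eval_C, Polynomial.eval_X]
      field_simp
      ring
    · simp only [Polynomial.eval_add, Polynomial.eval_mul, Polynomial.eval_C, Polynomial.eval_X]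
      field_simp
      ring
  let w₀ : X ⟶ X := (Polynomial.aeval P (1 - s * g) : End X)
  have hI : IsIso (𝟙 X - w₀) := by
    refine hq' _ (htriv _ ?_ ?_)
    · rw [Polynomial.eval_sub, Polynomial.eval_mul, hs1, Polynomial.eval_one, sub_self]
    · rw [Polynomial.eval_sub, Polynomial.eval_mul, hs2, Polynomial.eval_one, sub_self]
  have hU' : IsUnit (1 - Polynomial.aeval P (1 - s * g) : End X) :=
    (isUnit_iff_isIso (𝟙 X - w₀ : X ⟶ X)).2 hI
  have hU : IsUnit (Polynomial.aeval P g : End X) := by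
    rw [map_sub, map_one, sub_sub_cancel, map_mul] at hU'
    have hcc : Commute (Polynomial.aeval P s : End X) (Polynomial.aeval P g) := by
      unfold Commute SemiconjBy
      rw [← map_mul, ← map_mul, mul_comm]
    exact (hcc.isUnit_mul_iff.1 hU').2
  have hprod : (P - 1) ^ a * (P + 1) ^ b = 0 := by
    rw [hq, hg, map_mul, map_mul, map_pow, map_pow, map_sub, map_sub, Polynomial.aeval_X,
      Polynomial.aeval_C, Polynomial.aeval_C, map_neg, map_one, sub_neg_eq_add, ← mul_assoc] at h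
    exact (hU.mul_left_eq_zero).1 h
  have hcom : Commute (P - 1) (P + 1) := by
    unfold Commute SemiconjBy
    noncomm_ring
  refine ⟨a + b, ?_⟩
  have e1 : P * P - 1 = (P - 1) * (P + 1) := by noncomm_ring
  rw [e1, hcom.mul_pow, pow_add, pow_add]
  have e2 : (P - 1) ^ a * (P - 1) ^ b * ((P + 1) ^ a * (P + 1) ^ b) =
      (P - 1) ^ b * ((P - 1) ^ a * (P + 1) ^ b) * (P + 1) ^ a := by
    rw [← pow_add, ← pow_add, add_comm a b, pow_add (P - 1), add_comm b a, add_comm a b, pow_add (P + 1)]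
    simp only [mul_assoc]
  rw [e2, hprod, mul_zero, zero_mul]


section
variable {T : Type u} [Category.{v} T] [HasZeroObject T] [HasShift T ℤ] [Preadditive T]
  [∀ n : ℤ, (shiftFunctor T n).Additive] [Pretriangulated T] [IsTriangulated T]
  [MonoidalCategory T] [SymmetricCategory T] [RightRigidCategory T] [MonoidalPreadditive T]
  {𝒜 : Type u'} [Category.{v'} 𝒜] [Abelian 𝒜] {H : T ⥤ 𝒜} [H.IsHomological]
  {W : ℤ → ObjectProperty 𝒜} {𝒞 : ObjectProperty T}
  {F : Type} [Field F] [CharZero F] [Linear F T] [MonoidalLinear F T]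

/-- The sign conjecture and quasi-regularity imply the sign decomposition. -/
theorem Setup.signSum' [IsIdempotentComplete T] (hS : Setup H W 𝒞 F)
    (hQ : Quasi H 𝒞) (hsign : Sign H 𝒞) : SignSum H 𝒞 := by
  intro X hX
  obtain ⟨P, hP⟩ := hsign X hX
  let P' : End X := P
  obtain ⟨f, hf, hf'⟩ := hS.exists_alg hQ hX (P := P') hP
  have h1 : IsNilpotent (P' * P' - 1) := nilp_of_quasi F P' hP (fun g hg => hQ X hX g hg) f hf hf'
  obtain ⟨A, B, hA, hB, rA, rB, e⟩ := Pool.Agent.W778.KC.exists_split F P' hP h1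
  exact ⟨A, B, hS.retract_mem _ _ hX rA, hS.retract_mem _ _ hX rB, hA, hB, e⟩

theorem Setup.gsym_zero (hS : Setup H W 𝒞 F) (hQ : Quasi H 𝒞) {ε : ℤ} (hε : ε * ε = 1) {X : T}
    (hX : 𝒞 X) {n : ℕ} (h : HomTriv H (gsym ε X n)) : gsym ε X n = 0 := by
  have hn : ((n.factorial : ℕ) : F) ≠ 0 := Nat.cast_ne_zero.2 n.factorial_ne_zero
  have h1 : IsIso (𝟙 (tpow X n) - ((n.factorial : ℕ) : F)⁻¹ • gsym ε X n) := by
    refine hQ _ (hS.tpow_mem' hX n) _ ?_
    have h2 : ((n.factorial : ℕ) : F)⁻¹ • gsym ε X n =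
        gsym ε X n ≫ (((n.factorial : ℕ) : F)⁻¹ • 𝟙 (tpow X n)) := by
      rw [Linear.comp_smul, Category.comp_id]
    rw [h2]
    exact h.comp_left _
  rw [← cancel_mono (𝟙 (tpow X n) - ((n.factorial : ℕ) : F)⁻¹ • gsym ε X n), zero_comp,
    Preadditive.comp_sub, Category.comp_id, Linear.comp_smul, idem ε hε,
    ← Nat.cast_smul_eq_nsmul F, smul_smul, inv_mul_cancel₀ hn, one_smul, sub_self]

theorem Setup.kimura' (hS : Setup H W 𝒞 F) (hQ : Quasi H 𝒞) (hsign : SignSum H 𝒞) :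
    Kimura 𝒞 := by
  intro X hX
  obtain ⟨A, B, hA, hB, hAe, hBo, e⟩ := hsign X hX
  obtain ⟨n, hn⟩ := (hS.even_iff A).1 hAe
  obtain ⟨m, hm⟩ := (hS.odd_iff B).1 hBo
  exact ⟨A, B, hA, hB, ⟨n, hS.gsym_zero hQ (by norm_num) hA hn⟩,
    ⟨m, hS.gsym_zero hQ (by norm_num) hB hm⟩, e⟩

omit [HasZeroObject T] [HasShift T ℤ] [∀ n : ℤ, (shiftFunctor T n).Additive]
  [Pretriangulated T] [IsTriangulated T] [MonoidalCategory T] [SymmetricCategory T]
  [RightRigidCategory T] [MonoidalPreadditive T] [Linear F T] [MonoidalLinear F T] in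
theorem corner_pow {X Z : T} (i : Z ⟶ X) (r : X ⟶ Z) (hir : i ≫ r = 𝟙 Z) (E : End X)
    (hE : E = r ≫ i) (x : End X) (y : End Z) (hy : y = i ≫ (x : X ⟶ X) ≫ r) (j : ℕ) :
    (E * x * E) ^ (j + 1) = (r ≫ ((y ^ (j + 1) : End Z) : Z ⟶ Z) ≫ i : X ⟶ X) := by
  have h0 : E * x * E = (r ≫ (y : Z ⟶ Z) ≫ i : X ⟶ X) := by
    change (E : X ⟶ X) ≫ ((x : X ⟶ X) ≫ (E : X ⟶ X)) = _
    rw [hE, hy]
    simp only [Category.assoc]
  induction j with
  | zero =>
    rw [zero_add, pow_one, pow_one]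
    exact h0
  | succ j ih =>
    rw [pow_succ, ih, pow_succ, h0]
    change (r ≫ (y : Z ⟶ Z) ≫ i) ≫ (r ≫ ((y ^ (j + 1) : End Z) : Z ⟶ Z) ≫ i) =
      r ≫ ((y : Z ⟶ Z) ≫ ((y ^ (j + 1) : End Z) : Z ⟶ Z)) ≫ i
    simp only [Category.assoc]
    rw [← Category.assoc i r, hir, Category.id_comp]

/-- On a finite dimensional object the endomorphisms which are zero on cohomology are
nilpotent. -/
theorem Setup.nilp_of_kimura (hS : Setup H W 𝒞 F) (hK : Kimura 𝒞) : Nilp H 𝒞 := by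
  intro X hX f hf
  obtain ⟨A, B, -, -, ⟨n, hn⟩, ⟨m, hm⟩, ⟨e⟩⟩ := hK X hX
  let J : TwoSidedIdeal (End X) := TwoSidedIdeal.mk' {a | HomTriv H (X := X) (Y := X) a}
    (HomTriv.zero _ _) (fun {a b} ha hb => HomTriv.add ha hb) (fun {a} ha => HomTriv.neg ha)
    (fun {a b} hb => HomTriv.comp_left (f := (b : X ⟶ X)) hb (a : X ⟶ X))
    (fun {a b} ha => HomTriv.comp_right (g := (a : X ⟶ X)) ha (b : X ⟶ X))
  have hJ : ∀ a : End X, a ∈ J ↔ HomTriv H (X := X) (Y := X) a := fun a => by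
    simp only [J, TwoSidedIdeal.mem_mk', Set.mem_ofPred_eq]
  have corner : ∀ (Z : T) (i : Z ⟶ X) (r : X ⟶ Z) (_ : i ≫ r = 𝟙 Z) (ε : ℤ)
      (_ : ε * ε = 1) (k : ℕ) (_ : gsym ε Z k = 0) (E : End X) (_ : E = r ≫ i) (x : End X),
      x ∈ J → (E * x * E) ^ (k + 1) = 0 := by
    intro Z i r hir ε hε k hk E hEE x hx
    let y : End Z := i ≫ (x : X ⟶ X) ≫ r
    have hy : HomTriv H (X := Z) (Y := Z) y :=
      HomTriv.comp_right (HomTriv.comp_left (f := (x : X ⟶ X)) ((hJ x).1 hx) r) i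
    have hyk : y ^ k = 0 := hS.nil_of_gsym hε hk hy
    rw [corner_pow i r hir E hEE x y rfl k]
    have h1 : (y ^ (k + 1) : End Z) = 0 := by rw [pow_succ, hyk, zero_mul]
    exact (congrArg (fun z : Z ⟶ Z => r ≫ z ≫ i) h1).trans (by simp)
  let iA : A ⟶ X := biprod.inl ≫ e.inv
  let rA : X ⟶ A := e.hom ≫ biprod.fst
  let iB : B ⟶ X := biprod.inr ≫ e.inv
  let rB : X ⟶ B := e.hom ≫ biprod.snd
  have hA : iA ≫ rA = 𝟙 A := by simp [iA, rA]
  have hB : iB ≫ rB = 𝟙 B := by simp [iB, rB]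
  have hAB : (rA ≫ iA : X ⟶ X) + rB ≫ iB = 𝟙 X := by
    have h1 : biprod.fst ≫ biprod.inl + biprod.snd ≫ biprod.inr = 𝟙 (A ⊞ B) := biprod.total
    have h2 : (rA ≫ iA : X ⟶ X) + rB ≫ iB =
        e.hom ≫ (biprod.fst ≫ biprod.inl + biprod.snd ≫ biprod.inr) ≫ e.inv := by
      simp only [iA, rA, iB, rB, Preadditive.add_comp, Preadditive.comp_add, Category.assoc]
    rw [h2, h1]
    simp
  let E : End X := rA ≫ iA
  have hE' : (1 - E : End X) = (rB ≫ iB : X ⟶ X) := by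
    change 𝟙 X - rA ≫ iA = rB ≫ iB
    rw [← hAB]
    abel
  have hE : E * E = E := by
    change (rA ≫ iA) ≫ (rA ≫ iA) = rA ≫ iA
    rw [Category.assoc, ← Category.assoc iA rA, hA, Category.id_comp]
  refine Pool.Agent.W327.KCCorner.nil_of_corner (F := F) J E hE (n + 1) (m + 1) ?_ ?_ f
    ((hJ f).2 hf)
  · intro x hx
    exact corner A iA rA hA (-1) (by norm_num) n hn E rfl x hx
  · intro x hx
    exact corner B iB rB hB 1 (by norm_num) m hm (1 - E) hE' x hx

end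

end Pool.Agent.W492.KC
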