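import Pool.Agent.W492.KC.Descent

/-!
# The sign conjecture and conservativity on Chow motives imply the sign decomposition
-/

set_option linter.unusedSectionVars false
set_option linter.style.haveILetI false

open CategoryTheory Limits MonoidalCategory Triangulated Pretriangulated ZeroObject

namespace Pool.Agent.W492.KC

open Pool.Agent.W492.MT (tpow tr)

universe v u v' u'

variable {T : Type u} [Category.{v} T] [HasZeroObject T] [HasShift T ℤ] [Preadditive T]
  [∀ n : ℤ, (shiftFunctor T n).Additive] [Pretriangulated T] [IsTriangulated T]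
  [MonoidalCategory T] [SymmetricCategory T] [RightRigidCategory T] [MonoidalPreadditive T]
  {𝒜 : Type u'} [Category.{v'} 𝒜] [Abelian 𝒜] {H : T ⥤ 𝒜} [H.IsHomological]
  {W : ℤ → ObjectProperty 𝒜} {𝒞 : ObjectProperty T}
  {F : Type} [Field F] [CharZero F] [Linear F T] [MonoidalLinear F T]

theorem Setup.tpow_mem' (hS : Setup H W 𝒞 F) {X : T} (hX : 𝒞 X) (n : ℕ) : 𝒞 (tpow X n) := by
  induction n with
  | zero => exact hS.one_mem
  | succ n ih => exact hS.tensor_mem _ _ hX ih

theorem Setup.parity_pw (hS : Setup H W 𝒞 F) {X : T} {P : X ⟶ X} (hP : Parity H P) (n : ℕ) :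
    Parity H (pw P n) := by
  induction n with
  | zero =>
    refine ⟨fun m => ?_, fun m => ?_⟩
    · change H.map ((𝟙 (𝟙_ T))⟦2 * m⟧') = 𝟙 _
      rw [CategoryTheory.Functor.map_id, CategoryTheory.Functor.map_id]
    · exact (hS.unit_deg (2 * m + 1) (by omega)).eq_of_src _ _
  | succ n ih => exact hS.parity _ _ _ _ hP ih

instance semi (n : ℕ) : IsSemisimpleRing (MonoidAlgebra F (Equiv.Perm (Fin n))) := by
  haveI : NeZero ((Nat.card (Equiv.Perm (Fin n)) : ℕ) : F) :=
    ⟨Nat.cast_ne_zero.2 Nat.card_pos.ne'⟩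
  infer_instance

variable {X : T} {φ : ∀ n : ℕ, Equiv.Perm (Fin n) →* End (tpow X n)}

theorem homTriv_mul_left {n : ℕ} {x e : MonoidAlgebra F (Equiv.Perm (Fin n))}
    (h : HomTriv H (X := tpow X n) (Y := tpow X n) (rho F φ n e)) :
    HomTriv H (X := tpow X n) (Y := tpow X n) (rho F φ n (x * e)) := by
  rw [map_mul]
  exact HomTriv.comp_left (f := (rho F φ n e : tpow X n ⟶ tpow X n)) h _

/-- a linear combination of permutations which is zero on cohomology is zero. -/
theorem Setup.rho_zero (hS : Setup H W 𝒞 F) (hQ : Quasi H 𝒞) (hX : 𝒞 X) (n : ℕ)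
    (a : MonoidAlgebra F (Equiv.Perm (Fin n)))
    (ha : HomTriv H (X := tpow X n) (Y := tpow X n) (rho F φ n a)) : rho F φ n a = 0 := by
  let J : Ideal (MonoidAlgebra F (Equiv.Perm (Fin n))) :=
    { carrier := {a | HomTriv H (X := tpow X n) (Y := tpow X n) (rho F φ n a)}
      add_mem' := fun {a b} ha hb => by
        change HomTriv H (X := tpow X n) (Y := tpow X n) (rho F φ n (a + b))
        rw [map_add]
        exact HomTriv.add ha hb
      zero_mem' := by
        change HomTriv H (X := tpow X n) (Y := tpow X n) (rho F φ n 0)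
        rw [map_zero]
        exact HomTriv.zero _ _
      smul_mem' := fun c a h => homTriv_mul_left h }
  obtain ⟨e, he, hJ⟩ := IsSemisimpleRing.ideal_eq_span_idempotent J
  have h1 : e ∈ J := hJ ▸ Ideal.mem_span_singleton_self e
  have h2 : a ∈ Ideal.span {e} := hJ ▸ (show a ∈ J from ha)
  obtain ⟨b, hb⟩ := Ideal.mem_span_singleton'.1 h2
  let r : tpow X n ⟶ tpow X n := rho F φ n e
  have h3 : IsIso (𝟙 _ - r) := hQ _ (hS.tpow_mem' hX n) r h1
  have h4 : r ≫ r = r := by
    have := congrArg (rho F φ n) he.eq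
    rw [map_mul] at this
    exact this
  have h5 : r = 0 := by
    rw [← cancel_mono (𝟙 _ - r), zero_comp, Preadditive.comp_sub, Category.comp_id, h4, sub_self]
  have h6 : rho F φ n e = 0 := h5
  rw [← hb, map_mul, h6, mul_zero]

/-- the non-degeneracy of the trace twisted by a parity operator. -/
theorem Setup.homTriv_of_tr (hS : Setup H W 𝒞 F) (hX : 𝒞 X) {P : X ⟶ X} (hP : Parity H P)
    (n : ℕ) (a : MonoidAlgebra F (Equiv.Perm (Fin n)))
    (ha : ∀ y : MonoidAlgebra F (Equiv.Perm (Fin n)),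
      tr ((rho F φ n (y * a) : tpow X n ⟶ tpow X n) ≫ pw P n) = 0) :
    HomTriv H (X := tpow X n) (Y := tpow X n) (rho F φ n a) := by
  have hadd : ∀ u v : MonoidAlgebra F (Equiv.Perm (Fin n)),
      tr ((rho F φ n (u + v) : tpow X n ⟶ tpow X n) ≫ pw P n) =
      tr ((rho F φ n u : tpow X n ⟶ tpow X n) ≫ pw P n) +
        tr ((rho F φ n v : tpow X n ⟶ tpow X n) ≫ pw P n) := by
    intro u v
    rw [← PC.tr_add, ← Preadditive.add_comp, map_add]
  let J : Ideal (MonoidAlgebra F (Equiv.Perm (Fin n))) :=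
    { carrier := {a | ∀ y : MonoidAlgebra F (Equiv.Perm (Fin n)),
        tr ((rho F φ n (y * a) : tpow X n ⟶ tpow X n) ≫ pw P n) = 0}
      add_mem' := fun {a b} ha hb y => by
        rw [mul_add, hadd, ha y, hb y, add_zero]
      zero_mem' := fun y => by
        have h1 : tr ((0 : tpow X n ⟶ tpow X n) ≫ pw P n) = 0 := by
          rw [zero_comp]
          exact map_zero (trL F (tpow X n))
        rw [mul_zero, map_zero]
        exact h1
      smul_mem' := fun c a h y => by
        have := h (y * c)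
        rw [mul_assoc] at this
        exact this }
  obtain ⟨e, he, hJ⟩ := IsSemisimpleRing.ideal_eq_span_idempotent J
  have h1 : e ∈ J := hJ ▸ Ideal.mem_span_singleton_self e
  have h2 : a ∈ Ideal.span {e} := hJ ▸ (show a ∈ J from ha)
  obtain ⟨b, hb⟩ := Ideal.mem_span_singleton'.1 h2
  have h3 := h1 1
  rw [one_mul] at h3
  have h4 : (rho F φ n e : tpow X n ⟶ tpow X n) ≫ (rho F φ n e : tpow X n ⟶ tpow X n) =
      (rho F φ n e : tpow X n ⟶ tpow X n) := by
    have := congrArg (rho F φ n) he.eq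
    rw [map_mul] at this
    exact this
  have h5 := hS.rank _ (hS.tpow_mem' hX n) _ (hS.parity_pw hP n) _ h4 h3
  rw [← hb]
  exact homTriv_mul_left h5

/-- If the parity operator `P` is not algebraic, the symmetric groups act freely. -/
theorem Setup.rho_injective (hS : Setup H W 𝒞 F) (hQ : Quasi H 𝒞) (hX : 𝒞 X)
    (hφ : PermAction X φ) {P : End X} (hP : Parity H (X := X) P)
    (hPa : ∀ f : Polynomial F, Polynomial.aeval P f = 0 → f = 0) (n : ℕ)
    (c : MonoidAlgebra F (Equiv.Perm (Fin n))) (hc : rho F φ n c = 0) : c = 0 := by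
  induction n with
  | zero =>
    have h1 : rho F φ 0 c = c.coeff 1 • (1 : End (tpow X 0)) := by
      rw [rho_apply, Fintype.sum_eq_single (1 : Equiv.Perm (Fin 0))
        (fun σ hσ => absurd (Subsingleton.elim σ 1) hσ), (φ 0).map_one]
    rw [h1] at hc
    rcases smul_eq_zero.1 hc with h3 | h3
    · apply MonoidAlgebra.coeff_injective
      apply Finsupp.ext
      intro σ
      rw [Subsingleton.elim σ 1, h3]
      rfl
    · exact absurd h3 hS.unit_ne
  | succ n ih =>
    have key : ∀ c : MonoidAlgebra F (Equiv.Perm (Fin (n + 1))), rho F φ (n + 1) c = 0 →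
        res c = 0 := by
      intro c hc
      apply ih
      apply hS.rho_zero hQ hX n
      apply hS.homTriv_of_tr hX hP n
      intro y
      induction y using MonoidAlgebra.induction_linear with
      | zero =>
        have h1 : tr ((0 : tpow X n ⟶ tpow X n) ≫ pw P n) = 0 := by
          rw [zero_comp]
          exact map_zero (trL F (tpow X n))
        rw [zero_mul, map_zero]
        exact h1
      | add u v hu hv =>
        have h1 : tr ((rho F φ n (u * res c + v * res c) : tpow X n ⟶ tpow X n) ≫ pw P n) =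
            tr ((rho F φ n (u * res c) : tpow X n ⟶ tpow X n) ≫ pw P n) +
            tr ((rho F φ n (v * res c) : tpow X n ⟶ tpow X n) ≫ pw P n) := by
          rw [← PC.tr_add, ← Preadditive.add_comp, map_add]
        rw [add_mul, h1, hu, hv, add_zero]
      | single a r =>
        rw [tr_rho]
        have h1 : rho F φ (n + 1) (MonoidAlgebra.single (up a) r * c) = 0 := by
          rw [map_mul, hc, mul_zero]
        have h2 := trace_zero hS.scalar hφ P hPa n _ h1
        refine Eq.trans (Finset.sum_congr rfl fun τ _ => ?_) h2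
        rw [coeff_single_mul_up]
    have h1 : ∀ c : MonoidAlgebra F (Equiv.Perm (Fin (n + 1))), rho F φ (n + 1) c = 0 →
        c.coeff 1 = 0 := by
      intro c hc
      have h2 := congrArg (fun z => MonoidAlgebra.coeff z 1) (key c hc)
      have h3 : (res c).coeff 1 = c.coeff (up 1) := rfl
      rw [up_one] at h3
      rw [← h3]
      exact h2
    ext σ
    have h2 := h1 (MonoidAlgebra.single σ⁻¹ 1 * c) (by rw [map_mul, hc, mul_zero])
    rw [MonoidAlgebra.coeff_single_mul_apply, inv_inv, mul_one, one_mul] at h2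
    rw [h2]
    rfl

theorem Setup.exists_alg (hS : Setup H W 𝒞 F) (hQ : Quasi H 𝒞) (hX : 𝒞 X) {P : End X}
    (hP : Parity H (X := X) P) : ∃ f : Polynomial F, f ≠ 0 ∧ Polynomial.aeval P f = 0 := by
  by_contra hcon
  have hPa : ∀ f : Polynomial F, Polynomial.aeval P f = 0 → f = 0 := by
    intro f hf
    by_contra hne
    exact hcon ⟨f, hne, hf⟩
  obtain ⟨φ, hφ⟩ := Pool.Agent.W284.KCACT.exists_permAction X
  obtain ⟨n, c, hc, hc'⟩ := hS.schur X hX φ hφ
  apply hc
  let c' : MonoidAlgebra F (Equiv.Perm (Fin n)) := .ofCoeff (Finsupp.equivFunOnFinite.symm c)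
  have h1 : HomTriv H (X := tpow X n) (Y := tpow X n) (rho F φ n c') := by
    rw [rho_apply]
    exact hc'
  have h2 := hS.rho_injective hQ hX hφ hP hPa n c' (hS.rho_zero hQ hX n c' h1)
  funext σ
  have h3 := congrArg (fun z => MonoidAlgebra.coeff z σ) h2
  exact h3

/-- The sign conjecture and conservativity on Chow motives imply the sign decomposition. -/
theorem Setup.signSum [IsIdempotentComplete T] (hS : Setup H W 𝒞 F)
    (hC : ChowConservative H 𝒞) (hsign : Sign H 𝒞) : SignSum H 𝒞 := by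
  intro X hX
  obtain ⟨P, hP⟩ := hsign X hX
  let P' : End X := P
  obtain ⟨f, hf, hf'⟩ := hS.exists_alg (quasi_of_chowConservative hC) hX (P := P') hP
  have h1 : IsNilpotent (P' * P' - 1) :=
    Pool.Agent.W778.KC.nilp_of_alg F P' hP (fun g hg => hC X X hX hX g hg) f hf hf'
  obtain ⟨A, B, hA, hB, rA, rB, e⟩ := Pool.Agent.W778.KC.exists_split F P' hP h1
  exact ⟨A, B, hS.retract_mem _ _ hX rA, hS.retract_mem _ _ hX rB, hA, hB, e⟩

theorem sign_of_signSum (h : SignSum H 𝒞) : Sign H 𝒞 := by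
  intro X hX
  obtain ⟨A, B, -, -, hA, hB, ⟨e⟩⟩ := h X hX
  have h1 : biprod.fst ≫ biprod.inl + biprod.snd ≫ biprod.inr = 𝟙 (A ⊞ B) := biprod.total
  refine ⟨e.hom ≫ (biprod.fst ≫ biprod.inl - biprod.snd ≫ biprod.inr) ≫ e.inv, ?_, ?_⟩
  · intro n
    have h2 : e.hom ≫ (biprod.fst ≫ biprod.inl - biprod.snd ≫ biprod.inr) ≫ e.inv =
        𝟙 X - (e.hom ≫ (biprod.snd ≫ 𝟙 B)) ≫ ((2 : ℕ) • biprod.inr ≫ e.inv) := by
      have h3 : (biprod.fst ≫ biprod.inl - biprod.snd ≫ biprod.inr : A ⊞ B ⟶ A ⊞ B) =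
          𝟙 _ - (2 : ℕ) • (biprod.snd ≫ biprod.inr) := by
        rw [← h1, two_nsmul]
        abel
      rw [h3]
      simp [Preadditive.sub_comp, Preadditive.comp_sub]
    rw [h2, Functor.map_sub, Functor.map_sub, Functor.map_comp, Functor.map_comp,
      CategoryTheory.Functor.map_id, CategoryTheory.Functor.map_id]
    have h4 : H.map ((e.hom ≫ (biprod.snd ≫ 𝟙 B))⟦2 * n⟧') = 0 := (hB n).eq_of_tgt _ _
    rw [h4, zero_comp, sub_zero]
  · intro n
    have h2 : e.hom ≫ (biprod.fst ≫ biprod.inl - biprod.snd ≫ biprod.inr) ≫ e.inv =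
        - 𝟙 X + (e.hom ≫ (biprod.fst ≫ 𝟙 A)) ≫ ((2 : ℕ) • biprod.inl ≫ e.inv) := by
      have h3 : (biprod.fst ≫ biprod.inl - biprod.snd ≫ biprod.inr : A ⊞ B ⟶ A ⊞ B) =
          - 𝟙 _ + (2 : ℕ) • (biprod.fst ≫ biprod.inl) := by
        rw [← h1, two_nsmul]
        abel
      rw [h3]
      simp [Preadditive.add_comp, Preadditive.comp_add]
    rw [h2, Functor.map_add, Functor.map_add, Functor.map_comp, Functor.map_comp,
      Functor.map_neg, Functor.map_neg,
      CategoryTheory.Functor.map_id, CategoryTheory.Functor.map_id]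
    have h4 : H.map ((e.hom ≫ (biprod.fst ≫ 𝟙 A))⟦2 * n + 1⟧') = 0 := (hA n).eq_of_tgt _ _
    rw [h4, zero_comp, add_zero]

end Pool.Agent.W492.KC
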