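import Pool.Agent.W492.KC.Semi

/-!
# Conservativity from hom = num and nilpotence, by weights
-/

set_option linter.unusedSectionVars false
set_option linter.style.haveILetI false

open CategoryTheory Limits MonoidalCategory Triangulated Pretriangulated ZeroObject

namespace Pool.Agent.W492.KC

open Pool.Agent.W492.MT (tpow tr)

open Pool.Agent.W492.TS Pool.Agent.W492.PC

universe v u v' u'

section
variable {T : Type u} [Category.{v} T] [HasZeroObject T] [HasShift T ℤ] [Preadditive T]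
  [∀ n : ℤ, (shiftFunctor T n).Additive] [Pretriangulated T] [IsTriangulated T]

/-- the shifts `X⟦n⟧` of the objects `X` of `𝒞`. -/
def Deg (𝒞 : ObjectProperty T) (n : ℤ) : ObjectProperty T := fun X => 𝒞 (X⟦-n⟧)

variable {𝒞 : ObjectProperty T}

/-- closure under direct summands -/
def Ret (𝒞 : ObjectProperty T) : Prop := ∀ X Y, 𝒞 Y → Nonempty (Retract X Y) → 𝒞 X

theorem Deg.retract (hr : Ret 𝒞) {n : ℤ} {X Y : T} (hY : Deg 𝒞 n Y)
    (r : Nonempty (Retract X Y)) : Deg 𝒞 n X := by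
  obtain ⟨r⟩ := r
  exact hr _ _ hY ⟨r.map (shiftFunctor T (-n))⟩

theorem Deg.shift (hr : Ret 𝒞) {n a n' : ℤ} (h : n + a = n') {X : T} (hX : Deg 𝒞 n X) :
    Deg 𝒞 n' (X⟦a⟧) :=
  hr _ _ hX ⟨Retract.ofIso (shiftIso X a (-n') (-n) (by omega))⟩

theorem filtDeg_shift (hr : Ret 𝒞) {l : List ℤ} {M : T} (hM : Filt (Deg 𝒞) l M) (a : ℤ) :
    Filt (Deg 𝒞) (l.map (· + a)) (M⟦a⟧) := by
  induction l generalizing M with
  | nil => exact (shiftFunctor T a).map_isZero hM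
  | cons n l ih =>
    obtain ⟨X, M', f, g, h, hT, hX, hM'⟩ := hM
    exact ⟨X⟦a⟧, M'⟦a⟧, _, _, _, Triangle.shift_distinguished _ hT a,
      Deg.shift hr rfl hX, ih hM'⟩

theorem exists_filtDeg (hr : Ret 𝒞) (hgen : ∀ P : ObjectProperty T,
    P.IsClosedUnderIsomorphisms → P.IsTriangulated → (∀ X, 𝒞 X → P X) → ∀ X, P X) (M : T) :
    ∃ l, Filt (Deg 𝒞) l M := by
  let P : ObjectProperty T := fun M => ∃ l, Filt (Deg 𝒞) l M
  haveI h0 : P.IsClosedUnderIsomorphisms := ⟨fun e ⟨l, hl⟩ => ⟨l, hl.of_iso e⟩⟩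
  haveI h1 : P.ContainsZero := ⟨⟨0, isZero_zero T, ⟨[], isZero_zero T⟩⟩⟩
  haveI h2 : P.IsStableUnderShift ℤ := ⟨fun a => ⟨fun X ⟨l, hl⟩ => ⟨_, filtDeg_shift hr hl a⟩⟩⟩
  haveI h3 : P.IsTriangulatedClosed₂ :=
    ObjectProperty.IsTriangulatedClosed₂.mk' fun t ht ⟨l, hl⟩ ⟨l', hl'⟩ =>
      ⟨l ++ l', Filt.concat ht hl hl'⟩
  refine hgen P h0 {} ?_ M
  intro X hX
  refine ⟨[0], X, 0, 𝟙 X, 0, 0, contractible_distinguished X, ?_, isZero_zero T⟩
  exact hr _ _ hX ⟨Retract.ofIso ((shiftFunctorZero' T (-0 : ℤ) (by simp)).app X)⟩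

/-- orthogonality -/
def Orth (𝒞 : ObjectProperty T) : Prop :=
  ∀ X Y, 𝒞 X → 𝒞 Y → ∀ m : ℤ, 0 < m → ∀ f : X ⟶ Y⟦m⟧, f = 0

theorem conn_zero (ho : Orth 𝒞) {n m : ℤ} (hnm : n ≤ m) {X Y : T}
    (hX : Deg 𝒞 m X) (hY : Deg 𝒞 n Y) (h : Y ⟶ X⟦(1 : ℤ)⟧) : h = 0 := by
  apply (shiftFunctor T (-n)).map_injective
  rw [Functor.map_zero]
  let φ : X⟦(1 : ℤ)⟧⟦-n⟧ ≅ X⟦-m⟧⟦m + 1 - n⟧ :=
    shiftIso X 1 (-n) (1 - n) (by ring) ≪≫ (shiftIso X (-m) (m + 1 - n) (1 - n) (by ring)).symm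
  rw [← cancel_mono φ.hom, zero_comp]
  exact ho _ _ hY hX _ (by omega) _

theorem iso_of_conn_zero {X M Y : T} {f : X ⟶ M} {g : M ⟶ Y} {h : Y ⟶ X⟦(1 : ℤ)⟧}
    (hT : Triangle.mk f g h ∈ distTriang T) (h0 : h = 0) : Nonempty (M ≅ X ⊞ Y) := by
  obtain ⟨e, -⟩ := exists_iso_binaryBiproduct_of_distTriang _ hT h0
  exact ⟨e⟩

theorem swap_deg (ho : Orth 𝒞) : Swap (Deg 𝒞) := by
  intro n m hnm X M Y f g h hT hX hY
  obtain ⟨e⟩ := iso_of_conn_zero hT (conn_zero ho hnm.le hX hY h)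
  refine ⟨Y, X, _, _, _, tri_iso₂ (binaryBiproductTriangle_distinguished Y X)
    ((biprod.braiding X Y).symm ≪≫ e.symm), hY, hX⟩

/-- two adjacent steps of a filtration. -/
theorem filt_two {𝒬 : ℤ → ObjectProperty T} {n m : ℤ} {l : List ℤ} {M : T}
    (hM : Filt 𝒬 (n :: m :: l) M) :
    ∃ (E M'' X Y : T) (f : E ⟶ M) (g : M ⟶ M'') (h : M'' ⟶ E⟦(1 : ℤ)⟧) (a : X ⟶ E)
      (b : E ⟶ Y) (κ : Y ⟶ X⟦(1 : ℤ)⟧), Triangle.mk f g h ∈ distTriang T ∧
      Triangle.mk a b κ ∈ distTriang T ∧ 𝒬 n X ∧ 𝒬 m Y ∧ Filt 𝒬 l M'' := by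
  have hM2 : Filt 𝒬 ([n, m] ++ l) M := hM
  obtain ⟨E, M'', f, g, k, hT, hE, hM''⟩ := hM2.split
  obtain ⟨X, Y₀, a, b, c, hT', hX, hY₀⟩ := hE
  obtain ⟨Y, Z₀, a', b', c', hT'', hY, hZ₀⟩ := hY₀
  have h1 : IsIso a' := (Triangle.isZero₃_iff_isIso₁ _ hT'').1 hZ₀
  have hT3 := tri_iso₃ hT' (@asIso _ _ _ _ a' h1).symm
  exact ⟨E, M'', X, Y, f, g, k, _, _, _, hT, hT3, hX, hY, hM''⟩

/-- merging the steps of the same degree. -/
theorem exists_strict (ho : Orth 𝒞) (hr : Ret 𝒞) (hsum : ∀ X Y, 𝒞 X → 𝒞 Y → 𝒞 (X ⊞ Y))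
    {l : List ℤ} (hl : l.Pairwise (· ≤ ·)) {M : T} (hM : Filt (Deg 𝒞) l M) :
    ∃ l' : List ℤ, l'.Pairwise (· < ·) ∧ l' ⊆ l ∧ Filt (Deg 𝒞) l' M := by
  induction l generalizing M with
  | nil => exact ⟨[], List.Pairwise.nil, List.Subset.refl _, hM⟩
  | cons n l ih =>
    obtain ⟨X, M', f, g, h, hT, hX, hM'⟩ := hM
    rw [List.pairwise_cons] at hl
    obtain ⟨l', h1, h2, h3⟩ := ih hl.2 hM'
    cases l' with
    | nil => exact ⟨[n], by simp, by simp, X, M', f, g, h, hT, hX, h3⟩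
    | cons m l' =>
      have hm : n ≤ m := hl.1 m (h2 (by simp))
      rcases hm.eq_or_lt with rfl | hm
      · obtain ⟨E, M'', X₁, Y₁, f₁, g₁, k₁, a, b, κ, hT₁, hT₂, hX₁, hY₁, hM''⟩ :=
          filt_two (𝒬 := Deg 𝒞) (n := n) (m := n) (l := l') ⟨X, M', f, g, h, hT, hX, h3⟩
        obtain ⟨e⟩ := iso_of_conn_zero hT₂ (conn_zero ho le_rfl hX₁ hY₁ κ)
        have hE : Deg 𝒞 n E := by
          haveI : PreservesBinaryBiproducts (shiftFunctor T (-n)) :=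
            preservesBinaryBiproducts_of_preservesBiproducts _
          refine hr _ _ (hsum _ _ hX₁ hY₁) ⟨Retract.ofIso ?_⟩
          exact (shiftFunctor T (-n)).mapIso e ≪≫ (shiftFunctor T (-n)).mapBiprod _ _
        refine ⟨n :: l', h1, ?_, E, M'', f₁, g₁, k₁, hT₁, hE, hM''⟩
        intro x hx
        rcases List.mem_cons.1 hx with rfl | hx
        · simp
        · exact List.mem_cons_of_mem _ (h2 (List.mem_cons_of_mem _ hx))
      · refine ⟨n :: m :: l', ?_, ?_, X, M', f, g, h, hT, hX, h3⟩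
        · rw [List.pairwise_cons] at h1 ⊢
          refine ⟨?_, List.pairwise_cons.2 h1⟩
          intro x hx
          rcases List.mem_cons.1 hx with rfl | hx
          · exact hm
          · exact hm.trans (h1.1 x hx)
        · intro x hx
          rcases List.mem_cons.1 hx with rfl | hx
          · simp
          · exact List.mem_cons_of_mem _ (h2 hx)

/-- a split epimorphism as connecting map. -/
theorem retract_of_section {X M Y : T} {f : X ⟶ M} {g : M ⟶ Y} {h : Y ⟶ X⟦(1 : ℤ)⟧}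
    (hT : Triangle.mk f g h ∈ distTriang T) (σ : X⟦(1 : ℤ)⟧ ⟶ Y) (hσ : σ ≫ h = 𝟙 _) :
    Nonempty (Retract M Y) := by
  obtain ⟨ρ, hρ⟩ : ∃ ρ : Y ⟶ M, 𝟙 Y - h ≫ σ = ρ ≫ g :=
    Triangle.coyoneda_exact₃ _ hT (𝟙 Y - h ≫ σ) (by
      change (𝟙 Y - h ≫ σ) ≫ h = 0
      rw [Preadditive.sub_comp, Category.id_comp, Category.assoc, hσ, Category.comp_id, sub_self])
  have hf : f = 0 := by
    apply (shiftFunctor T (1 : ℤ)).map_injective
    rw [Functor.map_zero]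
    have h1 : h ≫ f⟦(1 : ℤ)⟧' = 0 := comp_distTriang_mor_zero₃₁ _ hT
    rw [← Category.id_comp (f⟦(1 : ℤ)⟧'), ← hσ, Category.assoc, h1, comp_zero]
  have h2 : (g ≫ ρ - 𝟙 M) ≫ g = 0 := by
    have h3 : g ≫ h = 0 := comp_distTriang_mor_zero₂₃ _ hT
    rw [Preadditive.sub_comp, Category.id_comp, Category.assoc, ← hρ, Preadditive.comp_sub,
      Category.comp_id, ← Category.assoc, h3, zero_comp, sub_zero, sub_self]
  obtain ⟨z, hz⟩ : ∃ z : M ⟶ X, g ≫ ρ - 𝟙 M = z ≫ f := Triangle.coyoneda_exact₂ _ hT _ h2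
  rw [hf, comp_zero] at hz
  exact ⟨⟨g, ρ, sub_eq_zero.1 hz⟩⟩

end

section
variable {T : Type u} [Category.{v} T] [HasZeroObject T] [HasShift T ℤ] [Preadditive T]
  [∀ n : ℤ, (shiftFunctor T n).Additive] [Pretriangulated T] [IsTriangulated T]
  {𝒜 : Type u'} [Category.{v'} 𝒜] [Abelian 𝒜] {H : T ⥤ 𝒜} [H.IsHomological]
  {W : ℤ → ObjectProperty 𝒜} {𝒞 : ObjectProperty T}

theorem epi_of_comp_iso {A B C : 𝒜} (u : A ⟶ B) (e : B ≅ C) (h : Epi (u ≫ e.hom)) : Epi u := by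
  have h1 : u = (u ≫ e.hom) ≫ e.inv := by simp
  rw [h1]
  exact epi_comp _ _

theorem prop_of_epi' {P : ObjectProperty 𝒜} (hP : P.IsSerreClass) {A B : 𝒜} (u : A ⟶ B)
    (h : Epi u) (hA : P A) : P B :=
  P.prop_of_epi u hA

theorem anti_of_le (hanti : ∀ k, W (k + 1) ≤ W k) {a b : ℤ} (h : a ≤ b) : W b ≤ W a := by
  obtain ⟨n, rfl⟩ := Int.le.dest h
  clear h
  induction n with
  | zero => simp
  | succ n ih =>
    refine le_trans ?_ ih
    have := hanti (a + n)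
    rwa [add_assoc, ← Nat.cast_succ] at this

theorem Deg.weight (hser : ∀ k, (W k).IsSerreClass)
    (hw : ∀ X, 𝒞 X → ∀ n : ℤ, W n (H.obj (X⟦n⟧))) {n : ℤ} {X : T}
    (hX : Deg 𝒞 n X) (j : ℤ) : W (j + n) (H.obj (X⟦j⟧)) := by
  haveI := hser (j + n)
  exact (W (j + n)).prop_of_iso
    (H.mapIso (shiftIso X (-n) (j + n) j (by ring))) (hw _ hX (j + n))

theorem Deg.pure (hp : ∀ X, 𝒞 X → ∀ (n : ℤ) (A : 𝒜), W (n + 1) A →
    ∀ f : H.obj (X⟦n⟧) ⟶ A, f = 0) {n : ℤ} {X : T}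
    (hX : Deg 𝒞 n X) (j : ℤ) (A : 𝒜) (hA : W (j + n + 1) A) (f : H.obj (X⟦j⟧) ⟶ A) : f = 0 := by
  rw [← cancel_epi (H.mapIso (shiftIso X (-n) (j + n) j (by ring))).hom, comp_zero]
  exact hp _ hX (j + n) A hA _

theorem filt_weight (hser : ∀ k, (W k).IsSerreClass) (hanti : ∀ k, W (k + 1) ≤ W k)
    (hw : ∀ X, 𝒞 X → ∀ n : ℤ, W n (H.obj (X⟦n⟧))) {n : ℤ} {l : List ℤ} (hl : ∀ m ∈ l, n ≤ m)
    {M : T} (hM : Filt (Deg 𝒞) l M) (j : ℤ) : W (j + n) (H.obj (M⟦j⟧)) := by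
  refine Filt.of_forall (P := fun M => W (j + n) (H.obj (M⟦j⟧))) ?_ ?_ ?_ hM
  · intro X hX
    haveI := hser (j + n)
    exact (W (j + n)).prop_of_isZero
      (H.map_isZero ((shiftFunctor T j).map_isZero hX))
  · intro X Y Z f g h hT hX hZ
    haveI := hser (j + n)
    exact (W (j + n)).prop_X₂_of_exact (H.map_distinguished_exact _
      (Triangle.shift_distinguished _ hT j)) hX hZ
  · intro m hm X hX
    exact anti_of_le hanti (by have := hl m hm; omega) _ (Deg.weight hser hw hX j)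

end

section
variable {T : Type u} [Category.{v} T] [HasZeroObject T] [HasShift T ℤ] [Preadditive T]
  [∀ n : ℤ, (shiftFunctor T n).Additive] [Pretriangulated T] [IsTriangulated T]
  {𝒜 : Type u'} [Category.{v'} 𝒜] [Abelian 𝒜] {H : T ⥤ 𝒜} [H.IsHomological]

theorem Acyclic.shift {X : T} (h : Acyclic H X) (a : ℤ) : Acyclic H (X⟦a⟧) := fun n =>
  (h (a + n)).of_iso (H.mapIso (shiftIso X a n (a + n) rfl))

theorem Acyclic.of_iso {X Y : T} (h : Acyclic H X) (e : X ≅ Y) : Acyclic H Y := fun n =>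
  (h n).of_iso (H.mapIso ((shiftFunctor T n).mapIso e.symm))

theorem epi_shift_shift {X Y : T} {κ : X ⟶ Y} (h : ∀ j : ℤ, Epi (H.map (κ⟦j⟧'))) (a i : ℤ) :
    Epi (H.map ((κ⟦a⟧')⟦i⟧')) := by
  have h1 : (κ⟦a⟧')⟦i⟧' ≫ (shiftIso Y a i (a + i) rfl).hom =
      (shiftIso X a i (a + i) rfl).hom ≫ κ⟦a + i⟧' :=
    (shiftFunctorAdd' T a i (a + i) rfl).inv.naturality κ
  have h2 : (κ⟦a⟧')⟦i⟧' = (shiftIso X a i (a + i) rfl).hom ≫ κ⟦a + i⟧' ≫
      (shiftIso Y a i (a + i) rfl).inv := by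
    rw [← Category.assoc, ← h1, Category.assoc, Iso.hom_inv_id, Category.comp_id]
  rw [h2, H.map_comp, H.map_comp]
  haveI := h (a + i)
  infer_instance

end

variable {T : Type u} [Category.{v} T] [HasZeroObject T] [HasShift T ℤ] [Preadditive T]
  [∀ n : ℤ, (shiftFunctor T n).Additive] [Pretriangulated T] [IsTriangulated T]
  [MonoidalCategory T] [SymmetricCategory T] [RightRigidCategory T] [MonoidalPreadditive T]
  {𝒜 : Type u'} [Category.{v'} 𝒜] [Abelian 𝒜] {H : T ⥤ 𝒜} [H.IsHomological]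
  {W : ℤ → ObjectProperty 𝒜} {𝒞 : ObjectProperty T}
  {F : Type} [Field F] [CharZero F] [Linear F T] [MonoidalLinear F T]

theorem Setup.isZero_deg (hN : Quasi H 𝒞) {n : ℤ} {X : T} (hX : Deg 𝒞 n X)
    (h : Acyclic H X) : IsZero X := by
  have h1 : IsZero (X⟦-n⟧) := Setup.isZero_chow hN hX (h.shift _)
  have h2 : IsZero (X⟦-n⟧⟦n⟧) := (shiftFunctor T n).map_isZero h1
  exact h2.of_iso ((shiftFunctorZero T ℤ).symm.app X ≪≫
    (shiftIso X (-n) n 0 (by ring)).symm)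

theorem Setup.deg_step (hS : Setup H W 𝒞 F) (hD : HomEqNum H 𝒞) (hN : Quasi H 𝒞) {n m : ℤ}
    (hnm : n < m) {X E Y : T} {a : X ⟶ E} {b : E ⟶ Y} {κ : Y ⟶ X⟦(1 : ℤ)⟧}
    (hT : Triangle.mk a b κ ∈ distTriang T) (hX : Deg 𝒞 n X) (hY : Deg 𝒞 m Y)
    (hE : ∀ j : ℤ, W (j + m + 1) (H.obj (E⟦j + 1⟧))) : Deg 𝒞 m E := by
  letI := Functor.ShiftSequence.tautological H ℤ
  have h1 : ∀ j : ℤ, Epi (H.homologySequenceδ (Triangle.mk a b κ) j (j + 1) rfl) := by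
    intro j
    have h2 : H.map (a⟦j + 1⟧') = 0 :=
      Deg.pure hS.pure hX (j + 1) _ (anti_of_le hS.anti (by omega) _ (hE j)) _
    exact (H.homologySequence_exact₁ _ hT j (j + 1) rfl).epi_f_iff.2 h2
  by_cases hm : m = n + 1
  · subst hm
    have h3 : ∀ j : ℤ, Epi (H.map (κ⟦j⟧')) := by
      intro j
      exact epi_of_comp_iso (H.map (κ⟦j⟧'))
        ((H.shiftIso (1 : ℤ) j (j + 1) (by ring)).app X) (h1 j)
    let φ : X⟦(1 : ℤ)⟧⟦-(n + 1)⟧ ≅ X⟦-n⟧ := shiftIso X 1 (-(n + 1)) (-n) (by ring)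
    obtain ⟨σ₀, hσ₀⟩ := hS.exists_section hD hN hY hX (κ⟦-(n + 1)⟧' ≫ φ.hom) (by
      intro i
      rw [Functor.map_comp, Functor.map_comp]
      haveI := epi_shift_shift h3 (-(n + 1)) i
      infer_instance)
    obtain ⟨σ, hσ⟩ := exists_unshift (-(n + 1)) (φ.hom ≫ σ₀)
    have h6 : σ ≫ κ = 𝟙 _ := by
      apply (shiftFunctor T (-(n + 1))).map_injective
      rw [Functor.map_comp, hσ, CategoryTheory.Functor.map_id, ← cancel_mono φ.hom, Category.assoc,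
        Category.assoc, hσ₀, Category.comp_id, Category.id_comp]
    exact Deg.retract hS.retract_mem hY (retract_of_section hT σ h6)
  · have h3 : Acyclic H X := by
      intro i
      obtain ⟨j, rfl⟩ : ∃ j : ℤ, i = j + 1 := ⟨i - 1, by ring⟩
      have h4 : W (j + m) (H.obj (X⟦j + 1⟧)) :=
        prop_of_epi' (hS.serre (j + m)) _ (h1 j) (Deg.weight hS.serre hS.weight hY j)
      rw [IsZero.iff_id_eq_zero]
      exact Deg.pure hS.pure hX (j + 1) _ (anti_of_le hS.anti (by omega) _ h4) _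
    have h4 : IsZero X := Setup.isZero_deg hN hX h3
    have h5 : IsIso b := (Triangle.isZero₁_iff_isIso₂ _ hT).1 h4
    exact Deg.retract hS.retract_mem hY ⟨Retract.ofIso (@asIso _ _ _ _ b h5)⟩

theorem Setup.isZero_of_strict (hS : Setup H W 𝒞 F) (hD : HomEqNum H 𝒞) (hN : Quasi H 𝒞)
    (k : ℕ) {l : List ℤ} (hk : l.length = k) (hl : l.Pairwise (· < ·)) {M : T}
    (hM : Filt (Deg 𝒞) l M) (h0 : Acyclic H M) : IsZero M := by
  induction k generalizing l M with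
  | zero =>
    rw [List.length_eq_zero_iff] at hk
    subst hk
    exact hM
  | succ k ih =>
    match l, hk, hl, hM with
    | [n], _, _, hM =>
      obtain ⟨X, M', f, g, h, hT, hX, hM'⟩ := hM
      have h1 : IsIso f := (Triangle.isZero₃_iff_isIso₁ _ hT).1 hM'
      let e : X ≅ M := @asIso _ _ _ _ f h1
      exact (Setup.isZero_deg hN hX (h0.of_iso e.symm)).of_iso e.symm
    | n :: m :: l, hk, hl, hM =>
      obtain ⟨E, M'', X, Y, f, g, h, a, b, κ, hT, hT', hX, hY, hM''⟩ := filt_two hM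
      rw [List.pairwise_cons] at hl
      have hl2 := hl.2
      rw [List.pairwise_cons] at hl2
      have hE : ∀ j : ℤ, W (j + m + 1) (H.obj (E⟦j + 1⟧)) := by
        intro j
        letI := Functor.ShiftSequence.tautological H ℤ
        have h1 : W (j + (m + 1)) (H.obj (M''⟦j⟧)) :=
          filt_weight hS.serre hS.anti hS.weight (fun x hx => hl2.1 x hx) hM'' j
        have h2 : Epi (H.homologySequenceδ (Triangle.mk f g h) j (j + 1) rfl) :=
          (H.homologySequence_exact₁ _ hT j (j + 1) rfl).epi_f_iff.2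
            ((h0 (j + 1)).eq_of_tgt _ _)
        rw [← add_assoc] at h1
        exact prop_of_epi' (hS.serre (j + m + 1)) _ h2 h1
      have hE2 : Deg 𝒞 m E := hS.deg_step hD hN (hl.1 m (by simp)) hT' hX hY hE
      exact ih (by simpa using hk) hl.2 ⟨E, M'', f, g, h, hT, hE2, hM''⟩ h0

/-- hom = num and nilpotence imply conservativity. -/
theorem Setup.conservative (hS : Setup H W 𝒞 F) (hD : HomEqNum H 𝒞) (hN : Quasi H 𝒞) :
    Conservative H := by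
  intro M h0
  obtain ⟨l, hl⟩ := exists_filtDeg hS.retract_mem hS.gen M
  obtain ⟨l', h1, -, h2⟩ := exists_strict hS.orth hS.retract_mem hS.sum_mem
    (List.pairwise_insertionSort _ _) (Filt.sort (swap_deg hS.orth) l hl)
  exact hS.isZero_of_strict hD hN _ rfl h1 h2 h0

end Pool.Agent.W492.KC
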